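import Pool.Agent.H24.T4C.Two

/-!
# Hops along a vector, with an abstract time

`HopA`: the position of a sample moves along the difference of the velocities of its line and of a
copy over the record, with a full time `T` of the hop. The statements of `H24/T4C` for `HopA`:
`farA`, `starA`, `end0A`.
-/

set_option autoImplicit false

namespace Pool.T4P

open Finset Real Matrix
open Pool.Agent.H49.Ent Pool.Agent.H32.Dense Pool.STK Pool.POT Pool.FAD Pool.OWN68 Pool.TQ Pool.T4H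
open Pool.T4C
open Pool.K2S (Pe)
open Pool.PR46 (P1 P1_law P1_f P1_s P1_pos full_one glueLaw)
open Pool.DR24 (cr dp PA U3 mx nz nsg3 pa_of_near nz_u3 nrm_par kcode kval kval_j kval_le codes)
open Pool.DIR21 (Pb_Pe Pb_mono Pe_ci cond_ci ci ci0 ci1 ci_nonneg ci_mono mg_cond)
open Pool.DIR16 (Pe_cc cond_cc Pe_le_one ci_and)

/-- **The hops.** -/
structure HopA {Ω Λ Γ Φ υ : Type} [Fintype Ω] {c : ℕ} (p : Ω → ℝ) (L : Ω → Λ) (tf : Ω → ℤ)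
    (G : Ω → Γ) (D : Λ → Fin c → ℤ) (Fp : Ω → Φ) (z : Φ → Fin c → ℤ) (Yb : Φ → υ)
    (T : Ω × (Ω × Ω) → ℤ) (A : Λ × ((Fin c → ℤ) × ℤ) → Fin c → ℝ) (m K : ℕ) (e : ℝ) : Prop where
  law : IsLaw p
  e0 : 0 ≤ e
  far : FarH (Fl p L G) m K e (fun w => z (Fp w.1)) (fun w => Yb (Fp w.1)) T (Rd L tf D) A (Rv D)

/-- The error after the conditioning. -/
noncomputable def efa (e : ℝ) : ℝ := (e + Real.log 5 + Real.log 2) / (1 / 2)

theorem efa_nonneg {e : ℝ} (he : 0 ≤ e) : 0 ≤ efa e := by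
  have l5 : 0 ≤ Real.log 5 := Real.log_nonneg (by norm_num)
  have l2 : 0 ≤ Real.log 2 := Real.log_nonneg (by norm_num)
  unfold efa
  positivity

theorem efa_mono {e e' : ℝ} (h : e ≤ e') : efa e ≤ efa e' := by
  unfold efa
  have : (e + Real.log 5 + Real.log 2) ≤ (e' + Real.log 5 + Real.log 2) := by linarith
  exact div_le_div_of_nonneg_right this (by norm_num)

theorem efa_small : ∃ X : ℕ, ∀ u : ℕ, X ≤ u → efa (1 / 12 * u) ≤ u := by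
  obtain ⟨X1, hX1⟩ := ex_lin (a := 1) (b := 4 * (Real.log 5 + Real.log 2)) (by norm_num)
  refine ⟨X1, fun u hu => ?_⟩
  have h1 := hX1 u hu
  unfold efa
  rw [div_le_iff₀ (by norm_num)]
  have l5 : 0 ≤ Real.log 5 := Real.log_nonneg (by norm_num)
  have l2 : 0 ≤ Real.log 2 := Real.log_nonneg (by norm_num)
  linarith

variable {Ω Λ Γ Φ υ Γ' : Type} [Fintype Ω] [Fintype Γ'] {N : ℕ} {p : Ω → ℝ} {L : Ω → Λ}
  {tf : Ω → ℤ} {G : Ω → Γ} {D : Λ → Fin (N + 1) → ℤ} {Fp : Ω → Φ} {z : Φ → Fin (N + 1) → ℤ}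
  {Yb : Φ → υ} {T : Ω × (Ω × Ω) → ℤ} {A : Λ × ((Fin (N + 1) → ℤ) × ℤ) → Fin (N + 1) → ℝ}
  {m K : ℕ} {e : ℝ} {k : ℕ} {q : Γ' → ℝ} {f : Γ' → Ω} {g : Fin k → Γ' → Ω × (Ω × Ω)}

/-- **The hops given that all are big.** -/
theorem farA (H : HL p L G Fp q f g) (h : HopA p L tf G D Fp z Yb T A m K e) {y : ℕ}
    (hb : 1 / 2 ≤ Pe q (BGN D L m y g)) (j : Fin k) :
    FarH (cond q (BGN D L m y g) True) m K (efa e) (fun w => z (Fp (f w)))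
      (fun w => Yb (Fp (f w))) (fun w => T (g j w)) (fun w => Rd L tf D (g j w))
      A (Rv D) := by
  have l5 : 0 ≤ Real.log 5 := Real.log_nonneg (by norm_num)
  have h1 := (h.far.marg H.law (H.mg j)).ev (E := BGN D L m y g) (δ := 1 / 2) (by norm_num)
    (by linarith [h.e0]) hb
  have hpos : ∀ w, 0 < cond q (BGN D L m y g) True w → 0 < q w := fun w hw =>
    ((cond_pos_iff H.law.nonneg _ True w).1 hw).1
  refine ⟨h1.law, h1.tb, h1.full, fun w hw i => ?_, h1.vb, fun w w' hw hw' e1 => ?_⟩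
  · have := h1.pos w hw i
    simp only [H.Fe j w (hpos w hw)] at this
    exact this
  · have := h1.Yd w w' hw hw' e1
    simp only [H.Fe j w (hpos w hw), H.Fe j w' (hpos w' hw')] at this
    exact this

/-- **The star for the hops at one point.** -/
theorem starA {N : ℕ} (hN : N ≤ 2) {h δ κ₁ : ℝ} (hh0 : 0 < h) (hh : h ≤ 1) (hδ : 0 < δ)
    (hδ1 : δ ≤ 1) (hκ0 : 0 ≤ κ₁) (hκ : κ₁ < h / 2) (k : ℕ) : ∃ (B₀ : ℕ) (ϖ : ℝ), 0 < ϖ ∧
      ∀ K : ℕ, ∃ X0 : ℕ, ∀ (Ω Λ Γ Φ υ Γ' : Type) (_ : Fintype Ω) (_ : Fintype Γ')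
      (p : Ω → ℝ) (L : Ω → Λ) (tf : Ω → ℤ) (G : Ω → Γ) (D : Λ → Fin (N + 1) → ℤ)
      (Fp : Ω → Φ) (z : Φ → Fin (N + 1) → ℤ) (Yb : Φ → υ) (T : Ω × (Ω × Ω) → ℤ)
      (A : Λ × ((Fin (N + 1) → ℤ) × ℤ) → Fin (N + 1) → ℝ) (m : ℕ) (e : ℝ)
      (q : Γ' → ℝ) (f : Γ' → Ω) (g : Fin k → Γ' → Ω × (Ω × Ω)) (x y B : ℕ), X0 ≤ x → B₀ ≤ B →
      B * x = m → y ≤ x → HopA p L tf G D Fp z Yb T A m K e → efa e ≤ x →
      HL p L G Fp q f g → 1 / 2 ≤ Pe q (BGN D L m y g) →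
      RowT p (fun ω => z (Fp ω)) (fun ω => Yb (Fp ω)) m
        (((N : ℝ) + 1 - h) * m * Real.log 2 + x * Real.log 2) 1 →
      ∃ E : Ω → Prop, h / 24 ≤ Pe p E ∧ ∀ σ : Fin (N + 1) → Fin k,
        Pe q (fun w => BGN D L m y g w ∧ E (f w) ∧
          (2 : ℝ) ^ (-(κ₁ * x)) < |dtc (QDN D L x g) σ w|) ≤ δ := by
  have hL2 : 0 < Real.log 2 := Real.log_pos (by norm_num)
  obtain ⟨η, ϖ, hη, hϖ, hst⟩ := star (N := N) (h := h / 2) (κ₁ := κ₁) (δ := δ) (F₀ := 2) hκ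
    (by linarith) hκ0 hδ hδ1 (by norm_num)
  obtain ⟨B₀, hbl⟩ := blkN hN hh0 hh (c := 1) one_pos hη k
  refine ⟨B₀, ϖ, hϖ, fun K => ?_⟩
  obtain ⟨X1, hX1⟩ := hst K
  obtain ⟨X2, hX2⟩ := hbl K
  refine ⟨max X1 X2, fun Ω Λ Γ Φ υ Γ' _ _ p L tf G D Fp z Yb T A m e q f g x y B hX hB
    hBx hyx h1 hex H hbig hrow => ?_⟩
  have x1 : X1 ≤ x := (le_max_left _ _).trans hX
  have x2 : X2 ≤ x := (le_max_right _ _).trans hX
  have hp := h1.law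
  have hc := (farA H h1 hbig)
  have hT : Pe p (fun _ => True) = 1 := Pe_full hp fun _ _ => trivial
  have hbig0 : 0 < Pe q (BGN D L m y g) := by linarith
  have hcl := cond_law H.law.nonneg hbig0
  obtain ⟨i, hi, hd, E, -, hE, hr⟩ := hX2 Ω Γ' (Λ × ((Fin (N + 1) → ℤ) × ℤ)) υ _ _ p
    (cond q (BGN D L m y g) True) f (fun ω => z (Fp ω)) (fun ω => Yb (Fp ω)) m x B (efa e)
    (QDN D L x g) (fun j w => Rd L tf D (g j w)) (fun j w => T (g j w))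
    (fun _ => A) (fun _ => Rv D) x2 hB hBx hp hcl (efa_nonneg h1.e0) hex hc
    (fun j w hw => hQN H hp x y j w hw) (fun j w hw => hbN H hp hyx j w hw) (fun _ => True) ϖ
    hT.ge (hrow _ hT.ge (by rw [hT]; exact one_pos))
  refine ⟨E, by rwa [mul_one] at hE, fun σ => ?_⟩
  have key := hX1 Ω Γ' (Λ × ((Fin (N + 1) → ℤ) × ℤ)) υ _ _ p (cond q (BGN D L m y g) True) f
    (fun ω => z (Fp ω)) (fun ω => Yb (Fp ω)) m x k (efa e) (QDN D L x g)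
    (fun j w => Rd L tf D (g j w)) (fun j w => T (g j w)) (fun _ => A) (fun _ => Rv D)
    x1 hp hcl (efa_nonneg h1.e0) (denN H hbig) hc (fun j w hw => hQN H hp x y j w hw)
    (fun j w hw => hbN H hp hyx j w hw) i hd E (hr.weak (by
      have : 0 ≤ η * x := by positivity
      linarith)) σ
  exact (Pe_cnd H.law hbig0 _).trans key

/-- **One vector and one image**, for the hops at one point. -/
theorem end0A {h c δ : ℝ} (hh0 : 0 < h) (hh : h ≤ 1) (hc : 0 < c) (hδ : 0 < δ) (hδ1 : δ ≤ 1)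
    (k : ℕ) : ∃ (B₀ : ℕ) (η ϖ : ℝ), 0 < η ∧ 0 < ϖ ∧ ∀ (K : ℕ) (c1 : ℝ),
      0 ≤ c1 → ∃ X0 : ℕ, ∀ (Ω Λ Γ Φ υ Γ' : Type) (_ : Fintype Ω) (_ : Fintype Γ')
      (p : Ω → ℝ)
      (L : Ω → Λ) (tf : Ω → ℤ) (G : Ω → Γ) (D : Λ → Fin 2 → ℤ)
      (Fp : Ω → Φ) (z : Φ → Fin 2 → ℤ) (Yb : Φ → υ) (T : Ω × (Ω × Ω) → ℤ)
      (A : Λ × ((Fin 2 → ℤ) × ℤ) → Fin 2 → ℝ) (m : ℕ) (e : ℝ)
      (q : Γ' → ℝ) (f : Γ' → Ω) (g : Fin k → Γ' → Ω × (Ω × Ω)) (x y B : ℕ), X0 ≤ x → B₀ ≤ B →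
      B * x = m → y ≤ x → HopA p L tf G D Fp z Yb T A m K e → efa e ≤ x →
      HL p L G Fp q f g → 1 / 2 ≤ Pe q (BGN (N := 1) D L m y g) → ∀ (E : Ω → Prop), c ≤ Pe p E →
      CH (cond p E True) (fun ω => z (Fp ω)) (fun ω => ((fun l => z (Fp ω) l / 2 ^ m),
        Yb (Fp ω))) ≤ (2 - h) * m * Real.log 2 + x * Real.log 2 →
      ∀ (kcl : Ω → Fin 3 → ℤ) (ka : (Fin 3 → ℤ) → Fin 2 → ℝ), (∀ k i, |ka k i| ≤ 1) →
      (∀ i ∈ range B, FI1OnG (N := 1) p (fun ω => z (Fp ω))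
        (fun ω => Yb (Fp ω)) kcl ka x i 0 (x * Real.log 2 - η * x) ϖ E) →
      ∃ E' : Ω → Prop, (∀ ω, E' ω → E ω) ∧ h / 24 * c ≤ Pe p E' ∧ ∀ (j₀ : Fin k)
        (g' : (Fin k → DC 1 x) → Fin 3 → ℝ), Pe q (fun w => BGN (N := 1) D L m y g w ∧ E' (f w) ∧
          MT0 (QDN (N := 1) D L x g) j₀ f kcl ka g' c1 w) ≤ δ := by
  have hL2 : 0 < Real.log 2 := Real.log_pos (by norm_num)
  obtain ⟨η, ϖ, hη, hϖ, hst⟩ := end0 (h := h / 2) (δ := δ) (F₀ := 2) (by linarith)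
    (by linarith) hδ hδ1 (by norm_num)
  obtain ⟨B₀, hbl⟩ := blkN (N := 1) (by norm_num) hh0 hh (c := c) hc hη k
  refine ⟨B₀, η, ϖ, hη, hϖ, fun K c1 hc1 => ?_⟩
  obtain ⟨X1, hX1⟩ := hst K c1 hc1
  obtain ⟨X2, hX2⟩ := hbl K
  refine ⟨max X1 X2, fun Ω Λ Γ Φ υ Γ' _ _ p L tf G D Fp z Yb T A m e q f g x y B hX hB
    hBx hyx h1 hex H hbig E hE hrow kcl ka hka hFI => ?_⟩
  have x1 : X1 ≤ x := (le_max_left _ _).trans hX
  have x2 : X2 ≤ x := (le_max_right _ _).trans hX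
  have hp := h1.law
  have hc := (farA (N := 1) H h1 hbig)
  have hbig0 : 0 < Pe q (BGN (N := 1) D L m y g) := by linarith
  have hcl := cond_law H.law.nonneg hbig0
  obtain ⟨i, hi, hd, E', hEE, hE', hr⟩ := hX2 Ω Γ' (Λ × ((Fin 2 → ℤ) × ℤ)) υ _ _ p
    (cond q (BGN (N := 1) D L m y g) True) f (fun ω => z (Fp ω)) (fun ω => Yb (Fp ω)) m x B (efa e)
    (QDN (N := 1) D L x g) (fun j w => Rd L tf D (g j w)) (fun j w => T (g j w))
    (fun _ => A) (fun _ => Rv D) x2 hB hBx hp hcl (efa_nonneg h1.e0) hex hc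
    (fun j w hw => hQN (N := 1) H hp x y j w hw) (fun j w hw => hbN (N := 1) H hp hyx j w hw) E ϖ hE
    (hrow.trans (by
      push_cast
      linarith))
  refine ⟨E', hEE, hE', fun j₀ g' => ?_⟩
  have key := hX1 Ω Γ' (Λ × ((Fin 2 → ℤ) × ℤ)) υ _ _ p (cond q (BGN (N := 1) D L m y g) True) f
    (fun ω => z (Fp ω)) (fun ω => Yb (Fp ω)) m x k (efa e) (QDN (N := 1) D L x g)
    (fun j w => Rd L tf D (g j w)) (fun j w => T (g j w)) (fun _ => A) (fun _ => Rv D)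
    x1 hp hcl (efa_nonneg h1.e0) (denN H hbig) hc
    (fun j w hw => hQN (N := 1) H hp x y j w hw)
    (fun j w hw => hbN (N := 1) H hp hyx j w hw) i hd E' (hr.weak (by
      push_cast
      have : 0 ≤ η * x := by positivity
      linarith)) kcl ka hka
    (fun G h1 h2 h3 => hFI i hi G (fun ω hω => hEE ω (h1 ω hω)) h2 h3) j₀ g'
  exact (Pe_cnd H.law hbig0 _).trans key

end Pool.T4P
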