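import Pool.Agent.H25.T4P.Thm

/-!
# Hops along a power of the time

`HpP`: two lines over one record at the time `τ₀` differ at the time `τ` by `(Δ D) (τ - τ₀) ^ j`.
`pow_full`: the power of a full time is full. `HpP.hopA`: such a system is a system of hops with the
abstract time `- 2 ^ m (τ - τ₀) ^ j`. `tieP_1`, `tieP_2`: the tie.
-/

set_option autoImplicit false

namespace Pool.T4P

open Finset Real Matrix
open Pool.Agent.H49.Ent Pool.Agent.H32.Dense Pool.STK Pool.POT Pool.FAD Pool.OWN68 Pool.TQ Pool.T4H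
open Pool.T4C
open Pool.K2S (Pe)
open Pool.PR46 (P1 P1_law P1_f P1_s P1_pos full_one glueLaw)
open Pool.DIR21 (Pb_Pe Pb_mono Pe_ci cond_ci ci ci0 ci1 ci_nonneg ci_mono mg_cond)

/-- **A system of hops of the order `j`.** `tf`: the time, `M` digits; `Pt l i`: the path of the
position of the line `l`; `D`: the velocity of the order `j`. -/
structure HpP {Ω Λ Γ 𝒞 𝒩 Φ υ : Type} [Fintype Ω] {c : ℕ} (p : Ω → ℝ) (L : Ω → Λ) (tf : Ω → ℤ)
    (G : Ω → Γ) (D : Λ → Fin c → ℤ) (Pt : Λ → Fin c → ℝ → ℝ) (C : Λ → 𝒞) (Nt : Λ → 𝒩) (Fp : Ω → Φ)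
    (z : Φ → Fin c → ℤ) (Yb : Φ → υ) (j m M K : ℕ) (e : ℝ) : Prop where
  law : IsLaw p
  e0 : 0 ≤ e
  mM : m ≤ M
  tfb : ∀ ω, 0 < p ω → 0 ≤ tf ω ∧ tf ω ≤ ((2 ^ M : ℕ) : ℤ)
  pos : ∀ ω, 0 < p ω → ∀ i, |(z (Fp ω) i : ℝ) - Pt (L ω) i (tf ω / 2 ^ M)| ≤ K
  GC : ∀ ω ω', 0 < p ω → 0 < p ω' → G ω = G ω' → C (L ω) = C (L ω') ∧ Nt (L ω) = Nt (L ω')
  Gt : ∀ ω ω', 0 < p ω → 0 < p ω' → G ω = G ω' → tf ω = tf ω'
  jmp : ∀ ω ω' ν, 0 < p ω → 0 < p ω' → 0 < p ν → G ω = G ω' → L ν = L ω → ∀ i,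
    |Pt (L ω') i (tf ν / 2 ^ M) - Pt (L ω) i (tf ν / 2 ^ M) -
      ((D (L ω') i : ℝ) - D (L ω) i) * ((tf ν : ℝ) / 2 ^ M - tf ω / 2 ^ M) ^ j| ≤ K
  GD : ∀ ω ω', 0 < p ω → 0 < p ω' → G ω = G ω' → ∀ i, |(D (L ω) i : ℝ) - D (L ω') i| ≤ 2 ^ m
  Yt : ∀ ω ω', 0 < p ω → 0 < p ω' → tf ω = tf ω' → C (L ω) = C (L ω') → Yb (Fp ω) = Yb (Fp ω')
  full : M * Real.log 2 - e ≤ CH p tf L
  free : CH p (fun ω => D (L ω)) (fun ω => (Nt (L ω), C (L ω))) - e ≤ CH p (fun ω => D (L ω)) G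

/-! ### Powers -/

/-- Two numbers of one sign with near powers. -/
theorem pow_near {x y r : ℝ} {j : ℕ} (hr : 0 < r) (hx : r ≤ x) (hy : r ≤ y) (hj : 1 ≤ j) :
    r ^ (j - 1) * |x - y| ≤ |x ^ j - y ^ j| := by
  obtain ⟨n, rfl⟩ : ∃ n, j = n + 1 := ⟨j - 1, by omega⟩
  rw [Nat.add_sub_cancel]
  have x0 : 0 < x := by linarith
  have y0 : 0 < y := by linarith
  have key : ∀ a b : ℝ, r ≤ a → a ≤ b → r ^ n * (b - a) ≤ b ^ (n + 1) - a ^ (n + 1) := by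
    intro a b ha hab
    have a0 : 0 < a := by linarith
    have h1 : r ^ n ≤ b ^ n := pow_le_pow_left₀ hr.le (ha.trans hab) n
    have h2 : a ^ n ≤ b ^ n := pow_le_pow_left₀ a0.le hab n
    have h3 : r ^ n * (b - a) ≤ b ^ n * (b - a) := mul_le_mul_of_nonneg_right h1 (by linarith)
    have h4 : a ^ n * a ≤ b ^ n * a := mul_le_mul_of_nonneg_right h2 a0.le
    rw [pow_succ, pow_succ]
    nlinarith
  rcases le_total x y with h | h
  · rw [abs_sub_comm x y, abs_of_nonneg (by linarith : 0 ≤ y - x), abs_sub_comm,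
      abs_of_nonneg (by linarith [pow_le_pow_left₀ x0.le h (n + 1)])]
    exact key x y hx h
  · rw [abs_of_nonneg (by linarith : 0 ≤ x - y),
      abs_of_nonneg (by linarith [pow_le_pow_left₀ y0.le h (n + 1)])]
    exact key y x hy h

/-- The same for two numbers of one sign. -/
theorem pow_near' {x y r : ℝ} {j : ℕ} (hr : 0 < r) (hx : r ≤ |x|) (hy : r ≤ |y|) (hj : 1 ≤ j)
    (hs : 0 ≤ x ↔ 0 ≤ y) : r ^ (j - 1) * |x - y| ≤ |x ^ j - y ^ j| := by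
  by_cases h : 0 ≤ x
  · have h' := hs.1 h
    rw [abs_of_nonneg h] at hx
    rw [abs_of_nonneg h'] at hy
    exact pow_near hr hx hy hj
  · have h' : ¬ 0 ≤ y := fun h1 => h (hs.2 h1)
    push Not at h h'
    rw [abs_of_neg h] at hx
    rw [abs_of_neg h'] at hy
    have h1 := pow_near hr hx hy hj
    have e1 : |(-x) - (-y)| = |x - y| := by
      rw [show (-x) - (-y) = -(x - y) by ring, abs_neg]
    have e2 : |(-x) ^ j - (-y) ^ j| = |x ^ j - y ^ j| := by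
      rw [neg_pow x, neg_pow y, ← mul_sub, abs_mul, abs_pow, abs_neg, abs_one, one_pow, one_mul]
    rwa [e1, e2] at h1

/-- The error of the power. -/
noncomputable def epw (e : ℝ) (m g j : ℕ) : ℝ :=
  e + Real.log 36 + m * ((e + Real.log 18) / g) + g * ((j - 1 : ℕ) * Real.log 2)

theorem epw_nonneg {e : ℝ} (he : 0 ≤ e) (m g j : ℕ) : 0 ≤ epw e m g j := by
  have l1 : 0 ≤ Real.log 36 := Real.log_nonneg (by norm_num)
  have l2 : 0 ≤ Real.log 18 := Real.log_nonneg (by norm_num)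
  have l3 : 0 ≤ Real.log 2 := Real.log_nonneg (by norm_num)
  unfold epw
  positivity

/-- The probability of an event as a sum. -/
theorem pe_ite {Ω : Type} [Fintype Ω] (q : Ω → ℝ) (S : Ω → Prop) [DecidablePred S] :
    (∑ w, if S w then q w else 0) = Pe q S := by
  unfold Pe Pool.Agent.H49.Ent.law
  refine Finset.sum_congr rfl fun w _ => ?_
  by_cases h : S w
  · rw [if_pos h, if_pos (eq_true h)]
  · rw [if_neg h, if_neg (by simpa using h)]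

open Classical in
/-- **The power of a full time is full.** -/
theorem pow_full {Ω ρ : Type} [Fintype Ω] {q : Ω → ℝ} (hq : IsLaw q) {R : Ω → ρ} {t : Ω → ℤ}
    {τ σ : Ω → ℝ} {m g j : ℕ} {e : ℝ} (hj : 1 ≤ j) (hg : 1 ≤ g) (hgm : g ≤ m)
    (ht : ∀ w, 0 < q w → |τ w - t w / 2 ^ m| ≤ 1 / 2 ^ m)
    (hτ : ∀ w, 0 < q w → 0 ≤ τ w ∧ τ w ≤ 1)
    (hR : ∀ w w', 0 < q w → 0 < q w' → R w = R w' → σ w = σ w')
    (full : m * Real.log 2 - e ≤ CH q t R) :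
    m * Real.log 2 - epw e m g j ≤ CH q (fun w => -⌊(2 : ℝ) ^ m * (σ w - τ w) ^ j⌋) R := by
  have h0 := hq.nonneg
  have l2 : 0 < Real.log 2 := Real.log_pos (by norm_num)
  have pm : (0 : ℝ) < 2 ^ m := by positivity
  have pg : (0 : ℝ) < 2 ^ g := by positivity
  have pm1 : (1 : ℝ) ≤ 2 ^ m := one_le_pow₀ (by norm_num)
  have pmg : (1 : ℝ) ≤ 2 ^ (m - g) := one_le_pow₀ (by norm_num)
  have emg : (2 : ℝ) ^ m = 2 ^ (m - g) * 2 ^ g := by
    rw [← pow_add, Nat.sub_add_cancel hgm]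
  obtain ⟨S, hS⟩ : ∃ S : Ω → Prop, S = fun w => |σ w - τ w| < 1 / 2 ^ g := ⟨_, rfl⟩
  obtain ⟨T, hT⟩ : ∃ T : Ω → ℤ, T = fun w => -⌊(2 : ℝ) ^ m * (σ w - τ w) ^ j⌋ := ⟨_, rfl⟩
  obtain ⟨iS, hiS⟩ : ∃ iS : Ω → Bool, iS = fun w => decide (S w) := ⟨_, rfl⟩
  obtain ⟨iP, hiP⟩ : ∃ iP : Ω → Bool, iP = fun w => decide (0 ≤ σ w - τ w) := ⟨_, rfl⟩
  rw [← hT]
  have hbool : ∀ {κ : Type} (b : Ω → Bool) (W : Ω → κ), CH q b W ≤ Real.log 2 := by
    intro κ b W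
    have h1 := CH_le_card h0 hq.sum_one b W (fun _ => (univ : Finset Bool))
      (fun _ _ => Finset.mem_univ _)
    rw [Ex_const hq.sum_one] at h1
    refine h1.trans (le_of_eq ?_)
    simp
  -- the distance of the times from the distance of the real times
  have hdt : ∀ w w', 0 < q w → 0 < q w' → ∀ r : ℝ, 1 ≤ r → 2 ^ m * |τ w - τ w'| ≤ 2 * r →
      |((t w - t w' : ℤ) : ℝ)| ≤ 4 * r := by
    intro w w' hw hw' r hr h1
    have a1 := ht w hw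
    have a2 := ht w' hw'
    have a3 : |(t w : ℝ) / 2 ^ m - t w' / 2 ^ m| ≤ |τ w - τ w'| + 2 * (1 / 2 ^ m) := by
      rw [abs_le] at a1 a2 ⊢
      have b1 := le_abs_self (τ w - τ w')
      have b2 := neg_abs_le (τ w - τ w')
      constructor <;> linarith [a1.1, a1.2, a2.1, a2.2]
    rw [← sub_div, abs_div, abs_of_pos pm, div_le_iff₀ pm] at a3
    push_cast
    have a4 : (|τ w - τ w'| + 2 * (1 / 2 ^ m)) * 2 ^ m = 2 ^ m * |τ w - τ w'| + 2 := by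
      field_simp
    rw [a4] at a3
    linarith
  -- the small set
  have hL1 : CH q t (fun w => (iS w, R w)) ≤ Ex q (fun w => Real.log (2 * (if S w then
      4 * 2 ^ (m - g) else 4 * 2 ^ m) + 1)) := by
    refine CH_le_int h0 hq.sum_one t _ _ fun w w' hw hw' e1 => ?_
    obtain ⟨e2, e3⟩ := Prod.ext_iff.mp e1
    have e4 := hR w w' hw hw' e3
    have e5 : S w ↔ S w' := by
      rw [hiS] at e2
      simpa using e2
    by_cases h : S w
    · rw [if_pos h]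
      refine hdt w w' hw hw' _ pmg ?_
      have h' := e5.1 h
      rw [hS] at h h'
      have h2 : |τ w - τ w'| ≤ 2 * (1 / 2 ^ g) := by
        rw [← e4] at h'
        have h3 : |σ w - τ w| < 1 / 2 ^ g := h
        have h4 : |σ w - τ w'| < 1 / 2 ^ g := h'
        rw [abs_lt] at h3 h4
        rw [abs_le]
        constructor <;> linarith [h3.1, h3.2, h4.1, h4.2]
      calc 2 ^ m * |τ w - τ w'| ≤ 2 ^ m * (2 * (1 / 2 ^ g)) :=
            mul_le_mul_of_nonneg_left h2 pm.le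
        _ = 2 * 2 ^ (m - g) := by
            rw [emg]
            field_simp
    · rw [if_neg h]
      refine hdt w w' hw hw' _ pm1 ?_
      have b1 := hτ w hw
      have b2 := hτ w' hw'
      have h2 : |τ w - τ w'| ≤ 2 := by
        rw [abs_le]
        constructor <;> linarith [b1.1, b1.2, b2.1, b2.2]
      calc 2 ^ m * |τ w - τ w'| ≤ 2 ^ m * 2 := mul_le_mul_of_nonneg_left h2 pm.le
        _ = 2 * 2 ^ m := by ring
  have hlog9 : ∀ n : ℕ, Real.log (2 * (4 * 2 ^ n) + 1) ≤ Real.log 9 + n * Real.log 2 := by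
    intro n
    have e1 : Real.log 9 + n * Real.log 2 = Real.log (9 * 2 ^ n) := by
      rw [Real.log_mul (by norm_num) (by positivity), Real.log_pow]
    rw [e1]
    refine Real.log_le_log (by positivity) ?_
    have : (1 : ℝ) ≤ 2 ^ n := one_le_pow₀ (by norm_num)
    linarith
  have hPS : Pe q S * (g * Real.log 2) ≤ e + Real.log 18 := by
    have h1 : CH q t R ≤ CH q iS R + CH q t (fun w => (iS w, R w)) := CH_le_add h0 t iS R
    have h2 : Ex q (fun w => Real.log (2 * (if S w then (4 : ℝ) * 2 ^ (m - g) else 4 * 2 ^ m) + 1))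
        ≤ Real.log 9 + m * Real.log 2 - Pe q S * (g * Real.log 2) := by
      have h3 : Ex q (fun w => Real.log (2 * (if S w then (4 : ℝ) * 2 ^ (m - g) else
          4 * 2 ^ m) + 1)) ≤ Ex q (fun w => (Real.log 9 + m * Real.log 2) -
          (if S w then 1 else 0) * (g * Real.log 2)) := by
        refine Ex_mono h0 fun w _ => ?_
        by_cases h : S w
        · rw [if_pos h, if_pos h, one_mul]
          refine (hlog9 (m - g)).trans (le_of_eq ?_)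
          rw [Nat.cast_sub hgm]
          ring
        · rw [if_neg h, if_neg h, zero_mul, sub_zero]
          exact hlog9 m
      refine h3.trans (le_of_eq ?_)
      unfold Ex
      rw [Finset.sum_congr rfl fun w _ => show q w * ((Real.log 9 + m * Real.log 2) -
          (if S w then 1 else 0) * (g * Real.log 2)) = q w * (Real.log 9 + m * Real.log 2) -
          (if S w then q w else 0) * (g * Real.log 2) by
        split_ifs <;> ring]
      rw [Finset.sum_sub_distrib, ← Finset.sum_mul, ← Finset.sum_mul, hq.sum_one, one_mul,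
        pe_ite]
    have h4 := hbool iS R
    have e1 : Real.log 18 = Real.log 2 + Real.log 9 := by
      rw [← Real.log_mul (by norm_num) (by norm_num)]
      norm_num
    linarith
  -- the time from the power
  have hL2 : CH q t (fun w => (iP w, (iS w, (T w, R w)))) ≤ Ex q (fun w => Real.log (2 *
      (if S w then 4 * 2 ^ m else 4 * 2 ^ (g * (j - 1))) + 1)) := by
    refine CH_le_int h0 hq.sum_one t _ _ fun w w' hw hw' e1 => ?_
    simp only [Prod.mk.injEq] at e1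
    obtain ⟨e2, e3, e4, e5⟩ := e1
    have e6 := hR w w' hw hw' e5
    have e7 : S w ↔ S w' := by
      rw [hiS] at e3
      simpa using e3
    have e8 : 0 ≤ σ w - τ w ↔ 0 ≤ σ w' - τ w' := by
      rw [hiP] at e2
      have := e2
      simp only [decide_eq_decide] at this
      exact this
    by_cases h : S w
    · rw [if_pos h]
      refine hdt w w' hw hw' _ pm1 ?_
      have b1 := hτ w hw
      have b2 := hτ w' hw'
      have h2 : |τ w - τ w'| ≤ 2 := by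
        rw [abs_le]
        constructor <;> linarith [b1.1, b1.2, b2.1, b2.2]
      calc 2 ^ m * |τ w - τ w'| ≤ 2 ^ m * 2 := mul_le_mul_of_nonneg_left h2 pm.le
        _ = 2 * 2 ^ m := by ring
    · rw [if_neg h]
      have h' : ¬ S w' := fun h1 => h (e7.2 h1)
      rw [hS] at h h'
      push Not at h h'
      refine hdt w w' hw hw' _ (one_le_pow₀ (by norm_num)) ?_
      have h1 := pow_near' (by positivity) h h' hj e8
      have h2 : |(2 : ℝ) ^ m * (σ w - τ w) ^ j - 2 ^ m * (σ w' - τ w') ^ j| ≤ 1 := by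
        rw [hT] at e4
        simp only [neg_inj] at e4
        have c1 := Int.floor_le ((2 : ℝ) ^ m * (σ w - τ w) ^ j)
        have c2 := (Int.lt_floor_add_one ((2 : ℝ) ^ m * (σ w - τ w) ^ j)).le
        have c3 := Int.floor_le ((2 : ℝ) ^ m * (σ w' - τ w') ^ j)
        have c4 := (Int.lt_floor_add_one ((2 : ℝ) ^ m * (σ w' - τ w') ^ j)).le
        rw [← e4] at c3 c4
        rw [abs_le]
        constructor <;> linarith
      rw [← mul_sub, abs_mul, abs_of_pos pm] at h2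
      have e9 : (σ w - τ w) - (σ w' - τ w') = -(τ w - τ w') := by rw [e6]; ring
      rw [e9, abs_neg] at h1
      have h3 : (1 / (2 : ℝ) ^ g) ^ (j - 1) * (2 ^ m * |τ w - τ w'|) ≤ 1 := by
        calc (1 / (2 : ℝ) ^ g) ^ (j - 1) * (2 ^ m * |τ w - τ w'|) =
            2 ^ m * ((1 / (2 : ℝ) ^ g) ^ (j - 1) * |τ w - τ w'|) := by ring
          _ ≤ 2 ^ m * |(σ w - τ w) ^ j - (σ w' - τ w') ^ j| :=
              mul_le_mul_of_nonneg_left h1 pm.le
          _ ≤ 1 := h2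
      rw [one_div, inv_pow, inv_mul_le_iff₀ (by positivity), mul_one, ← pow_mul] at h3
      have : (0 : ℝ) < 2 ^ (g * (j - 1)) := by positivity
      linarith
  have hEx2 : Ex q (fun w => Real.log (2 * (if S w then (4 : ℝ) * 2 ^ m else
      4 * 2 ^ (g * (j - 1))) + 1)) ≤
      Real.log 9 + Pe q S * (m * Real.log 2) + (g * (j - 1) : ℕ) * Real.log 2 := by
    have h3 : Ex q (fun w => Real.log (2 * (if S w then (4 : ℝ) * 2 ^ m else
        4 * 2 ^ (g * (j - 1))) + 1)) ≤ Ex q (fun w => (Real.log 9 + (g * (j - 1) : ℕ) *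
        Real.log 2) + (if S w then 1 else 0) * (m * Real.log 2)) := by
      refine Ex_mono h0 fun w _ => ?_
      by_cases h : S w
      · rw [if_pos h, if_pos h, one_mul]
        have := hlog9 m
        have h5 : (0 : ℝ) ≤ (g * (j - 1) : ℕ) * Real.log 2 := by positivity
        linarith
      · rw [if_neg h, if_neg h, zero_mul, add_zero]
        exact hlog9 (g * (j - 1))
    refine h3.trans (le_of_eq ?_)
    unfold Ex
    rw [Finset.sum_congr rfl fun w _ => show q w * ((Real.log 9 + (g * (j - 1) : ℕ) *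
        Real.log 2) + (if S w then 1 else 0) * (m * Real.log 2)) = q w * (Real.log 9 +
        (g * (j - 1) : ℕ) * Real.log 2) + (if S w then q w else 0) * (m * Real.log 2) by
      split_ifs <;> ring]
    rw [Finset.sum_add_distrib, ← Finset.sum_mul, ← Finset.sum_mul, hq.sum_one, one_mul,
      pe_ite]
    ring
  have a1 : CH q t R ≤ CH q T R + CH q t (fun w => (T w, R w)) := CH_le_add h0 t T R
  have a2 : CH q t (fun w => (T w, R w)) ≤ CH q iS (fun w => (T w, R w)) +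
      CH q t (fun w => (iS w, (T w, R w))) := CH_le_add h0 t iS _
  have a3 : CH q t (fun w => (iS w, (T w, R w))) ≤ CH q iP (fun w => (iS w, (T w, R w))) +
      CH q t (fun w => (iP w, (iS w, (T w, R w)))) := CH_le_add h0 t iP _
  have a4 := hbool iS (fun w => (T w, R w))
  have a5 := hbool iP (fun w => (iS w, (T w, R w)))
  have a6 : Pe q S * (m * Real.log 2) ≤ m * ((e + Real.log 18) / g) := by
    have hg0 : (0 : ℝ) < g := by exact_mod_cast hg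
    have h1 : Pe q S * Real.log 2 ≤ (e + Real.log 18) / g := by
      rw [le_div_iff₀ hg0]
      linarith
    calc Pe q S * (m * Real.log 2) = m * (Pe q S * Real.log 2) := by ring
      _ ≤ _ := mul_le_mul_of_nonneg_left h1 (Nat.cast_nonneg m)
  have e1 : Real.log 36 = Real.log 2 + Real.log 2 + Real.log 9 := by
    rw [← Real.log_mul (by norm_num) (by norm_num), ← Real.log_mul (by norm_num) (by norm_num)]
    norm_num
  have e2 : (((g * (j - 1) : ℕ) : ℝ)) * Real.log 2 = g * ((j - 1 : ℕ) * Real.log 2) := by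
    rw [Nat.cast_mul]
    ring
  rw [e2] at hEx2
  unfold epw
  linarith

variable {Ω Λ Γ 𝒞 𝒩 Φ υ : Type} [Fintype Ω] {c : ℕ} {p : Ω → ℝ} {L : Ω → Λ} {tf : Ω → ℤ}
  {G : Ω → Γ} {D : Λ → Fin c → ℤ} {Pt : Λ → Fin c → ℝ → ℝ} {C : Λ → 𝒞} {Nt : Λ → 𝒩} {Fp : Ω → Φ}
  {z : Φ → Fin c → ℤ} {Yb : Φ → υ} {j m M K : ℕ} {e : ℝ}

/-- The time of the hop of order `j`. -/
noncomputable def Tpw (tf : Ω → ℤ) (j m M : ℕ) (w : Ω × (Ω × Ω)) : ℤ :=
  -⌊(2 : ℝ) ^ m * ((tf w.1 : ℝ) / 2 ^ M - tf w.2.1 / 2 ^ M) ^ j⌋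

/-- The path of the line of the copy. -/
noncomputable def Apw (Pt : Λ → Fin c → ℝ → ℝ) (M : ℕ) (r : Λ × ((Fin c → ℤ) × ℤ)) (i : Fin c) :
    ℝ := Pt r.1 i (r.2.2 / 2 ^ M)

/-- The first digits of the time. -/
def tdg (tf : Ω → ℤ) (m M : ℕ) (ω : Ω) : ℤ := tf ω / ((2 ^ (M - m) : ℕ) : ℤ)

omit [Fintype Ω] in
theorem tdg_near (mM : m ≤ M) (tf : Ω → ℤ) (ω : Ω) :
    |(tf ω : ℝ) / 2 ^ M - tdg tf m M ω / 2 ^ m| ≤ 1 / 2 ^ m := by
  have pn : (0 : ℤ) < ((2 ^ (M - m) : ℕ) : ℤ) := by positivity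
  have pm : (0 : ℝ) < 2 ^ m := by positivity
  have pM : (0 : ℝ) < 2 ^ M := by positivity
  have e0 : (2 : ℝ) ^ M = 2 ^ (M - m) * 2 ^ m := by
    rw [← pow_add, Nat.sub_add_cancel mM]
  have h1 := Int.emod_add_mul_ediv (tf ω) ((2 ^ (M - m) : ℕ) : ℤ)
  have h2 := Int.emod_nonneg (tf ω) pn.ne'
  have h3 := Int.emod_lt_of_pos (tf ω) pn
  have e1 : (tf ω : ℝ) = ((tf ω % ((2 ^ (M - m) : ℕ) : ℤ) : ℤ) : ℝ) +
      2 ^ (M - m) * (tdg tf m M ω : ℝ) := by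
    unfold tdg
    have h4 : ((tf ω : ℤ) : ℝ) = ((tf ω % ((2 ^ (M - m) : ℕ) : ℤ) +
      ((2 ^ (M - m) : ℕ) : ℤ) * (tf ω / ((2 ^ (M - m) : ℕ) : ℤ)) : ℤ) : ℝ) := by rw [h1]
    rw [h4]
    push_cast
    ring
  have h2' : (0 : ℝ) ≤ ((tf ω % ((2 ^ (M - m) : ℕ) : ℤ) : ℤ) : ℝ) := by exact_mod_cast h2
  have h3' : ((tf ω % ((2 ^ (M - m) : ℕ) : ℤ) : ℤ) : ℝ) ≤ 2 ^ (M - m) := by
    have h5 : ((tf ω % ((2 ^ (M - m) : ℕ) : ℤ) : ℤ) : ℝ) ≤ (((2 ^ (M - m) : ℕ) : ℤ) : ℝ) := by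
      exact_mod_cast h3.le
    push_cast at h5
    exact h5
  have e2 : (tf ω : ℝ) / 2 ^ M - tdg tf m M ω / 2 ^ m =
      ((tf ω % ((2 ^ (M - m) : ℕ) : ℤ) : ℤ) : ℝ) / 2 ^ M := by
    rw [e1, e0]
    field_simp
    ring
  rw [e2, abs_of_nonneg (by positivity), div_le_div_iff₀ pM pm, one_mul, e0]
  exact mul_le_mul_of_nonneg_right h3' pm.le

/-- The system as a system of hops of order one with other positions. -/
theorem HpP.toHp (h : HpP p L tf G D Pt C Nt Fp z Yb j m M K e) :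
    Hp p L (tdg tf m M) tf G D (fun _ _ => 0) C Nt id
      (fun ω i => ⌊(D (L ω) i : ℝ) * (tf ω / 2 ^ M)⌋) (fun _ => ()) m M (2 ^ m + 2) e := by
  have pM : (0 : ℝ) < 2 ^ M := by positivity
  have pn : (0 : ℤ) < ((2 ^ (M - m) : ℕ) : ℤ) := by positivity
  have eM : (2 : ℤ) ^ M = 2 ^ (M - m) * 2 ^ m := by
    rw [← pow_add, Nat.sub_add_cancel h.mM]
  refine ⟨h.law, h.e0, h.mM, fun ω hω => ?_, fun ω hω => ?_, fun ω _ => tdg_near h.mM tf ω,
    fun ω hω i => ?_, h.GC, fun ω ω' a b e1 => ?_, fun ω ω' a b e1 i => ?_, h.GD,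
    fun _ _ _ _ _ _ => rfl, h.full, h.free⟩
  · obtain ⟨a1, a2⟩ := h.tfb ω hω
    have b1 : 0 ≤ tdg tf m M ω := Int.ediv_nonneg a1 pn.le
    have b2 : tdg tf m M ω ≤ ((2 ^ m : ℕ) : ℤ) := by
      unfold tdg
      refine Int.ediv_le_of_le_mul pn (a2.trans (le_of_eq ?_))
      push_cast
      rw [eM]
      ring
    rw [abs_of_nonneg b1]
    exact b2
  · obtain ⟨a1, a2⟩ := h.tfb ω hω
    rw [abs_of_nonneg a1]
    exact a2
  · simp only [id_eq, zero_add]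
    have c1 := Int.floor_le ((D (L ω) i : ℝ) * (tf ω / 2 ^ M))
    have c2 := (Int.lt_floor_add_one ((D (L ω) i : ℝ) * (tf ω / 2 ^ M))).le
    have c3 : (0 : ℝ) ≤ 2 ^ m := by positivity
    push_cast
    rw [abs_le]
    constructor <;> linarith
  · have e2 := h.Gt ω ω' a b e1
    exact ⟨by unfold tdg; rw [e2], e2⟩
  · simp only [id_eq]
    have e2 := h.Gt ω ω' a b e1
    have e3 := h.GD ω ω' a b e1 i
    obtain ⟨a1, a2⟩ := h.tfb ω' b
    rw [e2]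
    have c1 := Int.floor_le ((D (L ω) i : ℝ) * (tf ω' / 2 ^ M))
    have c2 := (Int.lt_floor_add_one ((D (L ω) i : ℝ) * (tf ω' / 2 ^ M))).le
    have c3 := Int.floor_le ((D (L ω') i : ℝ) * (tf ω' / 2 ^ M))
    have c4 := (Int.lt_floor_add_one ((D (L ω') i : ℝ) * (tf ω' / 2 ^ M))).le
    have s0 : (0 : ℝ) ≤ (tf ω' : ℝ) / 2 ^ M := div_nonneg (by exact_mod_cast a1) pM.le
    have s1 : (tf ω' : ℝ) / 2 ^ M ≤ 1 := by
      rw [div_le_one pM]
      exact_mod_cast a2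
    have c5 : |((D (L ω) i : ℝ) - D (L ω') i) * ((tf ω' : ℝ) / 2 ^ M)| ≤ 2 ^ m := by
      rw [abs_mul, abs_of_nonneg s0]
      calc _ ≤ (2 : ℝ) ^ m * 1 := mul_le_mul e3 s1 s0 (by positivity)
        _ = 2 ^ m := mul_one _
    rw [sub_mul] at c5
    push_cast
    rw [abs_le] at c5 ⊢
    constructor <;> linarith [c5.1, c5.2]

/-- **Hops of order `j` are hops with an abstract time.** -/
theorem HpP.hopA (h : HpP p L tf G D Pt C Nt Fp z Yb j m M K e) {g : ℕ} (hj : 1 ≤ j) (hg : 1 ≤ g)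
    (hgm : g ≤ m) :
    HopA p L tf G D Fp z Yb (Tpw tf j m M) (Apw Pt M) m (2 * K + 1)
      (epw (3 * e + 3 * Real.log 5) m g j) := by
  have hp := h.law
  have pm : (0 : ℝ) < 2 ^ m := by positivity
  have pM : (0 : ℝ) < 2 ^ M := by positivity
  have l5 : 0 ≤ Real.log 5 := Real.log_nonneg (by norm_num)
  have he := h.e0
  have hF := Fl_law hp L G
  have htb : ∀ ω, 0 < p ω → 0 ≤ (tf ω : ℝ) / 2 ^ M ∧ (tf ω : ℝ) / 2 ^ M ≤ 1 := fun ω hω => by
    obtain ⟨a1, a2⟩ := h.tfb ω hω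
    refine ⟨div_nonneg (by exact_mod_cast a1) pM.le, ?_⟩
    rw [div_le_one pM]
    exact_mod_cast a2
  refine ⟨hp, epw_nonneg (by positivity) m g j, ⟨hF, fun w hw => ?_, ?_, fun w hw i => ?_,
    fun w hw i => ?_, fun w w' hw hw' e1 => ?_⟩⟩
  · obtain ⟨a1, a2, a3, a4, a5⟩ := Fl_pos hp L G hw
    have b1 := htb _ a1
    have b2 := htb _ a2
    have c1 : |((tf w.1 : ℝ) / 2 ^ M - tf w.2.1 / 2 ^ M) ^ j| ≤ 1 := by
      rw [abs_pow]
      refine pow_le_one₀ (abs_nonneg _) ?_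
      rw [abs_le]
      constructor <;> linarith [b1.1, b1.2, b2.1, b2.2]
    obtain ⟨x, hx⟩ : ∃ x : ℝ, x = ((tf w.1 : ℝ) / 2 ^ M - tf w.2.1 / 2 ^ M) ^ j := ⟨_, rfl⟩
    rw [← hx] at c1
    have c2 := abs_le.1 c1
    unfold Tpw
    rw [← hx, abs_neg, abs_le]
    constructor
    · refine Int.le_floor.2 ?_
      push_cast
      nlinarith [c2.1]
    · have c3 : (⌊(2 : ℝ) ^ m * x⌋ : ℝ) ≤ 2 ^ m * x := Int.floor_le _
      have c4 : (⌊(2 : ℝ) ^ m * x⌋ : ℝ) ≤ (((2 ^ m : ℕ) : ℤ) : ℝ) := by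
        push_cast
        nlinarith [c2.2]
      exact_mod_cast c4
  · refine pow_full hF hj hg hgm (t := fun w => tdg tf m M w.2.1) (fun w hw => ?_)
      (fun w hw => ?_) (fun w w' hw hw' e1 => ?_) h.toHp.far_full
    · exact tdg_near h.mM tf w.2.1
    · exact htb _ (Fl_pos hp L G hw).2.1
    · unfold Rd at e1
      simp only [Prod.mk.injEq] at e1
      simp only [e1.2.2]
  · obtain ⟨a1, a2, a3, a4, a5⟩ := Fl_pos hp L G hw
    have b1 := h.pos _ a1 i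
    have b2 := h.jmp _ _ _ a2 a3 a1 a4 a5 i
    have b3 := h.GD _ _ a2 a3 a4 i
    obtain ⟨x, hx⟩ : ∃ x : ℝ, x = ((tf w.1 : ℝ) / 2 ^ M - tf w.2.1 / 2 ^ M) ^ j := ⟨_, rfl⟩
    rw [← hx, ← a5] at b2
    rw [← a5] at b3
    have c1 := Int.floor_le ((2 : ℝ) ^ m * x)
    have c2 := (Int.lt_floor_add_one ((2 : ℝ) ^ m * x)).le
    have c3 : |((D (L w.2.2) i : ℝ) - D (L w.1) i) * (⌊(2 : ℝ) ^ m * x⌋ / 2 ^ m - x)| ≤ 1 := by
      rw [abs_mul, abs_sub_comm (D (L w.2.2) i : ℝ)]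
      have c4 : |(⌊(2 : ℝ) ^ m * x⌋ : ℝ) / 2 ^ m - x| ≤ 1 / 2 ^ m := by
        have e2 : (⌊(2 : ℝ) ^ m * x⌋ : ℝ) / 2 ^ m - x = (⌊(2 : ℝ) ^ m * x⌋ - 2 ^ m * x) / 2 ^ m := by
          field_simp
        rw [e2, abs_div, abs_of_pos pm, div_le_div_iff_of_pos_right pm, abs_le]
        constructor <;> linarith
      calc _ ≤ (2 : ℝ) ^ m * (1 / 2 ^ m) := mul_le_mul b3 c4 (abs_nonneg _) pm.le
        _ = 1 := by field_simp
    have e3 : Apw Pt M (Rd L tf D w) i + Rv D (Rd L tf D w) i * Tpw tf j m M w / 2 ^ m =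
        Pt (L w.2.2) i (tf w.1 / 2 ^ M) -
          ((D (L w.2.2) i : ℝ) - D (L w.1) i) * (⌊(2 : ℝ) ^ m * x⌋ / 2 ^ m) := by
      unfold Apw Rd Rv Tpw
      rw [← hx]
      push_cast
      ring
    rw [e3]
    rw [mul_sub] at c3
    push_cast
    rw [abs_le] at b1 b2 c3 ⊢
    constructor <;> linarith [b1.1, b1.2, b2.1, b2.2, c3.1, c3.2]
  · obtain ⟨a1, a2, a3, a4, a5⟩ := Fl_pos hp L G hw
    have := h.GD _ _ a2 a3 a4 i
    show |(D (L w.2.2) i : ℝ) - D (L w.1) i| ≤ 2 ^ m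
    rw [a5, abs_sub_comm]
    exact this
  · obtain ⟨a1, a2, a3, a4, a5⟩ := Fl_pos hp L G hw
    obtain ⟨b1, b2, b3, b4, b5⟩ := Fl_pos hp L G hw'
    unfold Rd at e1
    simp only [Prod.mk.injEq] at e1
    refine h.Yt _ _ a1 b1 e1.2.2 ?_
    rw [a5, b5, (h.GC _ _ a2 a3 a4).1, (h.GC _ _ b2 b3 b4).1, e1.1]

/-! ### The tie -/

/-- **The hypotheses of the tie**, hops of order `j`. `h`: the deficit of the row; `η`: the small
rate; `δ`: the small mass; `ϖ`: the mass of the events; `u`: the unit of length; `a`: the length of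
the window in units; `K`: the bounded errors. -/
structure TieP {Ω Λ Γ 𝒞 𝒩 Φ υ : Type} [Fintype Ω] {N : ℕ} (p : Ω → ℝ) (L : Ω → Λ) (tf : Ω → ℤ)
    (G : Ω → Γ) (D : Λ → Fin (N + 1) → ℤ) (Pt : Λ → Fin (N + 1) → ℝ → ℝ) (C : Λ → 𝒞) (Nt : Λ → 𝒩)
    (Fp : Ω → Φ) (z : Φ → Fin (N + 1) → ℤ) (Yb : Φ → υ) (h η δ ϖ : ℝ) (j u a M K : ℕ) : Prop where
  s1 : HpP p L tf G D Pt C Nt Fp z Yb j (a * u) M K (η * u)
  alv1 : Pe (P1 p G) (fun b => ¬ BigN D L (a * u) u b) ≤ δ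
  row1 : RowT p (fun ω => z (Fp ω)) (fun ω => Yb (Fp ω)) (a * u)
    (((N : ℝ) + 1 - h) * (a * u) * Real.log 2 + η * u) ϖ

/-- The numbers. -/
theorem epw_num {η' : ℝ} (hη : 0 < η') (hη1 : η' ≤ 1) {a j : ℕ} (ha : 1 ≤ a) (hj : 1 ≤ j) :
    ∃ u₁ : ℕ, ∀ u : ℕ, u₁ ≤ u → ∃ g : ℕ, 1 ≤ g ∧ g ≤ a * u ∧
      epw (3 * (η' ^ 2 / (200 * a * j) * u) + 3 * Real.log 5) (a * u) g j ≤ η' * u := by
  have l5 : 0 ≤ Real.log 5 := Real.log_nonneg (by norm_num)
  have l36 : 0 ≤ Real.log 36 := Real.log_nonneg (by norm_num)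
  have l18 : 0 ≤ Real.log 18 := Real.log_nonneg (by norm_num)
  have l2 : 0 ≤ Real.log 2 := Real.log_nonneg (by norm_num)
  have l2' : Real.log 2 ≤ 1 := by
    have := Real.log_two_lt_d9
    linarith
  have a1 : (1 : ℝ) ≤ a := by exact_mod_cast ha
  have j1 : (1 : ℝ) ≤ j := by exact_mod_cast hj
  have j0 : (0 : ℝ) < j := by linarith
  have a0 : (0 : ℝ) < a := by linarith
  obtain ⟨c, hc⟩ : ∃ c : ℝ, c = 3 * Real.log 5 + Real.log 36 + Real.log 18 := ⟨_, rfl⟩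
  have hc0 : 0 ≤ c := by rw [hc]; positivity
  obtain ⟨X, hX⟩ := exists_nat_ge ((8 * j + 4 * (c + 8 * a * j * c / η')) / η' + 8 * j / η')
  refine ⟨max X 1, fun u hu => ?_⟩
  have hu1 : (1 : ℝ) ≤ u := by exact_mod_cast (le_max_right X 1).trans hu
  have hXu : (X : ℝ) ≤ u := by exact_mod_cast (le_max_left X 1).trans hu
  have h1 := hX.trans hXu
  have p1 : 0 ≤ 8 * j / η' := by positivity
  have p2 : 0 ≤ (8 * j + 4 * (c + 8 * a * j * c / η')) / η' := by positivity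
  have h2 : 8 * j + 4 * (c + 8 * a * j * c / η') ≤ u * η' := by
    rw [← div_le_iff₀ hη]
    linarith
  have h3 : 8 * j ≤ u * η' := by
    have : (0 : ℝ) ≤ 4 * (c + 8 * a * j * c / η') := by positivity
    linarith
  have h4 : 4 * (c + 8 * a * j * c / η') ≤ u * η' := by
    linarith
  obtain ⟨g, hg⟩ : ∃ g : ℕ, g = ⌊η' * u / (4 * j)⌋₊ := ⟨_, rfl⟩
  have g1 : (g : ℝ) ≤ η' * u / (4 * j) := by
    rw [hg]
    exact Nat.floor_le (by positivity)
  have g2 : η' * u / (4 * j) < g + 1 := by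
    rw [hg]
    exact Nat.lt_floor_add_one _
  have g3 : 2 ≤ η' * u / (4 * j) := by
    rw [le_div_iff₀ (by positivity)]
    linarith
  have g4 : η' * u / (8 * j) ≤ g := by
    have e1 : η' * u / (8 * j) = η' * u / (4 * j) / 2 := by
      field_simp
      ring
    rw [e1]
    linarith
  have g5 : (1 : ℝ) ≤ g := by linarith
  have g6 : (g : ℝ) ≤ u := by
    refine g1.trans ?_
    rw [div_le_iff₀ (by positivity)]
    have : η' * u ≤ 1 * u := mul_le_mul_of_nonneg_right hη1 (by linarith)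
    nlinarith
  refine ⟨g, by exact_mod_cast g5, ?_, ?_⟩
  · have h5 : (g : ℝ) ≤ ((a * u : ℕ) : ℝ) := by
      push_cast
      nlinarith
    exact_mod_cast h5
  · have hg0 : (0 : ℝ) < g := by linarith
    have e0 : (0 : ℝ) < η' * u / (8 * j) := by positivity
    obtain ⟨E, hE⟩ : ∃ E : ℝ, E = 3 * (η' ^ 2 / (200 * a * j) * u) + 3 * Real.log 5 := ⟨_, rfl⟩
    have hE0 : 0 ≤ E := by rw [hE]; positivity
    have b1 : ((a * u : ℕ) : ℝ) * ((E + Real.log 18) / g) ≤ 8 * a * j / η' * (E + Real.log 18) := by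
      push_cast
      have c1 : (E + Real.log 18) / g ≤ (E + Real.log 18) / (η' * u / (8 * j)) :=
        div_le_div_of_nonneg_left (by positivity) e0 g4
      calc (a : ℝ) * u * ((E + Real.log 18) / g) ≤ a * u * ((E + Real.log 18) /
            (η' * u / (8 * j))) := mul_le_mul_of_nonneg_left c1 (by positivity)
        _ = _ := by
            have : (u : ℝ) ≠ 0 := by linarith
            field_simp
    have b2 : (g : ℝ) * ((j - 1 : ℕ) * Real.log 2) ≤ η' * u / 4 := by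
      have c1 : ((j - 1 : ℕ) : ℝ) * Real.log 2 ≤ j := by
        have c2 : ((j - 1 : ℕ) : ℝ) ≤ j := by
          exact_mod_cast Nat.sub_le j 1
        calc _ ≤ (j : ℝ) * 1 := mul_le_mul c2 l2' l2 (by positivity)
          _ = j := mul_one _
      calc (g : ℝ) * ((j - 1 : ℕ) * Real.log 2) ≤ η' * u / (4 * j) * j :=
            mul_le_mul g1 c1 (by positivity) (by positivity)
        _ = _ := by field_simp
    have b3 : 8 * a * j / η' * (3 * (η' ^ 2 / (200 * a * j) * u)) = 24 / 200 * (η' * u) := by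
      field_simp
      ring
    have b4 : 3 * (η' ^ 2 / (200 * a * j) * u) ≤ 3 / 200 * (η' * u) := by
      have c1 : η' ^ 2 / (200 * a * j) ≤ η' / 200 := by
        rw [div_le_div_iff₀ (by positivity) (by norm_num)]
        have c2 : η' ^ 2 ≤ η' := by nlinarith
        have c3 : (1 : ℝ) ≤ a * j := one_le_mul_of_one_le_of_one_le a1 j1
        have c4 : η' * 1 ≤ η' * (a * j) := mul_le_mul_of_nonneg_left c3 hη.le
        nlinarith
      have c5 := mul_le_mul_of_nonneg_right c1 (show (0 : ℝ) ≤ u by linarith)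
      linarith
    have b5 : 8 * a * j / η' * (E + Real.log 18) ≤ 24 / 200 * (η' * u) + 8 * a * j * c / η' := by
      have c1 : E + Real.log 18 ≤ 3 * (η' ^ 2 / (200 * a * j) * u) + c := by
        rw [hE, hc]
        linarith
      calc 8 * a * j / η' * (E + Real.log 18) ≤ 8 * a * j / η' *
            (3 * (η' ^ 2 / (200 * a * j) * u) + c) := mul_le_mul_of_nonneg_left c1 (by positivity)
        _ = 8 * a * j / η' * (3 * (η' ^ 2 / (200 * a * j) * u)) + 8 * a * j * c / η' := by ring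
        _ = _ := by rw [b3]
    have b6 : E + Real.log 36 ≤ 3 / 200 * (η' * u) + c := by
      rw [hE, hc]
      linarith
    have hηu : 0 ≤ η' * u := by positivity
    rw [← hE]
    unfold epw
    linarith

theorem RowT.up {Ω υ : Type} [Fintype Ω] {c : ℕ} {p : Ω → ℝ} {z : Ω → Fin c → ℤ} {Yb : Ω → υ}
    {m : ℕ} {r r' c₀ : ℝ} (h : RowT p z Yb m r c₀) (hr : r ≤ r') : RowT p z Yb m r' c₀ :=
  fun E h1 h2 => (h E h1 h2).trans hr

/-- From hops of order `j` to hops with an abstract time. -/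
theorem TieP.toB {Ω Λ Γ 𝒞 𝒩 Φ υ : Type} [Fintype Ω] {N : ℕ} {p : Ω → ℝ} {L : Ω → Λ} {tf : Ω → ℤ}
    {G : Ω → Γ} {D : Λ → Fin (N + 1) → ℤ} {Pt : Λ → Fin (N + 1) → ℝ → ℝ} {C : Λ → 𝒞} {Nt : Λ → 𝒩}
    {Fp : Ω → Φ} {z : Φ → Fin (N + 1) → ℤ} {Yb : Φ → υ} {h η' η δ ϖ : ℝ} {j u a M K g : ℕ}
    (H : TieP p L tf G D Pt C Nt Fp z Yb h η δ ϖ j u a M K) (hj : 1 ≤ j) (hg : 1 ≤ g)
    (hgm : g ≤ a * u) (hη : η ≤ η')
    (he : epw (3 * (η * u) + 3 * Real.log 5) (a * u) g j ≤ η' * u) :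
    TieB p L tf G D Fp z Yb (Tpw tf j (a * u) M) (Apw Pt M) h η' δ ϖ u a (2 * K + 1) := by
  have h1 := H.s1.hopA hj hg hgm
  have l5 : 0 ≤ Real.log 5 := Real.log_nonneg (by norm_num)
  have hF := h1.far
  refine ⟨⟨h1.law, h1.e0.trans he, ⟨hF.law, hF.tb, ?_, hF.pos, hF.vb, hF.Yd⟩⟩, H.alv1, ?_⟩
  · have := hF.full
    linarith
  · refine RowT.up H.row1 ?_
    have := mul_le_mul_of_nonneg_right hη (Nat.cast_nonneg (α := ℝ) u)
    linarith

/-- **One coordinate, hops of order `j`.** -/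
theorem tieP_1 : ∀ (h : ℝ) (j : ℕ), 0 < h → h ≤ 1 → 1 ≤ j → ∃ (a : ℕ) (η δ ϖ : ℝ),
    1 ≤ a ∧ 0 < η ∧ 0 < δ ∧ 0 < ϖ ∧ ∀ K : ℕ, ∃ u₀ : ℕ,
    ∀ (Ω Λ Γ 𝒞 𝒩 Φ υ : Type) (_ : Fintype Ω) (p : Ω → ℝ) (L : Ω → Λ) (tf : Ω → ℤ) (G : Ω → Γ)
    (D : Λ → Fin 1 → ℤ) (Pt : Λ → Fin 1 → ℝ → ℝ) (C : Λ → 𝒞) (Nt : Λ → 𝒩) (Fp : Ω → Φ)
    (z : Φ → Fin 1 → ℤ) (Yb : Φ → υ) (u M : ℕ), u₀ ≤ u →
    ¬ TieP (N := 0) p L tf G D Pt C Nt Fp z Yb h η δ ϖ j u a M K := by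
  intro h j hh0 hh hj
  obtain ⟨a, η', δ, ϖ, ha, hη', hδ, hϖ, H⟩ := tie_1 h hh0 hh
  obtain ⟨η₁, hη₁⟩ : ∃ η₁ : ℝ, η₁ = min η' 1 := ⟨_, rfl⟩
  have e0 : 0 < η₁ := by rw [hη₁]; exact lt_min hη' one_pos
  have e1 : η₁ ≤ 1 := by rw [hη₁]; exact min_le_right _ _
  have e2 : η₁ ≤ η' := by rw [hη₁]; exact min_le_left _ _
  have a1 : (1 : ℝ) ≤ a := by exact_mod_cast ha
  have j1 : (1 : ℝ) ≤ j := by exact_mod_cast hj
  obtain ⟨u₁, hu₁⟩ := epw_num e0 e1 ha hj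
  refine ⟨a, η₁ ^ 2 / (200 * a * j), δ, ϖ, ha, by positivity, hδ, hϖ, fun K => ?_⟩
  obtain ⟨u₀, hu₀⟩ := H (2 * K + 1)
  refine ⟨max u₀ u₁, fun Ω Λ Γ 𝒞 𝒩 Φ υ _ p L tf G D Pt C Nt Fp z Yb u M hu HT => ?_⟩
  obtain ⟨g, g1, g2, g3⟩ := hu₁ u ((le_max_right _ _).trans hu)
  refine hu₀ Ω Λ Γ Φ υ _ p L tf G D Fp z Yb _ _ u ((le_max_left _ _).trans hu)
    (HT.toB hj g1 g2 (η' := η') ?_ (g3.trans ?_))
  · have c3 : (1 : ℝ) ≤ a * j := one_le_mul_of_one_le_of_one_le a1 j1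
    refine le_trans ?_ e2
    rw [div_le_iff₀ (by positivity)]
    nlinarith
  · exact mul_le_mul_of_nonneg_right e2 (Nat.cast_nonneg _)

/-- **Two coordinates, hops of order `j`.** -/
theorem tieP_2 : ∀ (h : ℝ) (j : ℕ), 0 < h → h ≤ 1 → 1 ≤ j → ∃ (a : ℕ) (η δ ϖ : ℝ),
    1 ≤ a ∧ 0 < η ∧ 0 < δ ∧ 0 < ϖ ∧ ∀ K : ℕ, ∃ u₀ : ℕ,
    ∀ (Ω Λ Γ 𝒞 𝒩 Φ υ : Type) (_ : Fintype Ω) (p : Ω → ℝ) (L : Ω → Λ) (tf : Ω → ℤ) (G : Ω → Γ)
    (D : Λ → Fin 2 → ℤ) (Pt : Λ → Fin 2 → ℝ → ℝ) (C : Λ → 𝒞) (Nt : Λ → 𝒩) (Fp : Ω → Φ)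
    (z : Φ → Fin 2 → ℤ) (Yb : Φ → υ) (u M : ℕ), u₀ ≤ u →
    TieP (N := 1) p L tf G D Pt C Nt Fp z Yb h η δ ϖ j u a M K →
    ¬ FI1G (N := 1) p L Fp (fun ω => z (Fp ω)) (fun ω => Yb (Fp ω)) u a 0
      (u * Real.log 2 - η * u) ϖ := by
  intro h j hh0 hh hj
  obtain ⟨a, η', δ, ϖ, ha, hη', hδ, hϖ, H⟩ := tie_2 h hh0 hh
  obtain ⟨η₁, hη₁⟩ : ∃ η₁ : ℝ, η₁ = min η' 1 := ⟨_, rfl⟩
  have e0 : 0 < η₁ := by rw [hη₁]; exact lt_min hη' one_pos
  have e1 : η₁ ≤ 1 := by rw [hη₁]; exact min_le_right _ _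
  have e2 : η₁ ≤ η' := by rw [hη₁]; exact min_le_left _ _
  have a1 : (1 : ℝ) ≤ a := by exact_mod_cast ha
  have j1 : (1 : ℝ) ≤ j := by exact_mod_cast hj
  have e3 : η₁ ^ 2 / (200 * a * j) ≤ η' := by
    have c3 : (1 : ℝ) ≤ a * j := one_le_mul_of_one_le_of_one_le a1 j1
    refine le_trans ?_ e2
    rw [div_le_iff₀ (by positivity)]
    nlinarith
  obtain ⟨u₁, hu₁⟩ := epw_num e0 e1 ha hj
  refine ⟨a, η₁ ^ 2 / (200 * a * j), δ, ϖ, ha, by positivity, hδ, hϖ, fun K => ?_⟩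
  obtain ⟨u₀, hu₀⟩ := H (2 * K + 1)
  refine ⟨max u₀ u₁, fun Ω Λ Γ 𝒞 𝒩 Φ υ _ p L tf G D Pt C Nt Fp z Yb u M hu HT hFI => ?_⟩
  obtain ⟨g, g1, g2, g3⟩ := hu₁ u ((le_max_right _ _).trans hu)
  have hu0 : (0 : ℝ) ≤ u := Nat.cast_nonneg _
  refine hu₀ Ω Λ Γ Φ υ _ p L tf G D Fp z Yb _ _ u ((le_max_left _ _).trans hu)
    (HT.toB hj g1 g2 (η' := η') e3 (g3.trans (mul_le_mul_of_nonneg_right e2 hu0))) ?_
  intro j' kL kP ka E h1 h2 h3 i hi G' b1 b2 b3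
  have h4 := hFI j' kL kP ka E h1 h2 h3 i hi G' b1 b2 b3
  have h5 := mul_le_mul_of_nonneg_right e3 hu0
  linarith

end Pool.T4P
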