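import Pool.Agent.H25.T4P.Far

/-!
# The tie with one and two coordinates, for hops with an abstract time

`TieB`: the hypotheses. `tie_1`, `tie_2`: `t4_1` and `t4_2` of `H24/T4C` for `HopA`.
-/


set_option autoImplicit false

namespace Pool.T4P

open Finset Real Matrix
open Pool.Agent.H49.Ent Pool.Agent.H32.Dense Pool.STK Pool.POT Pool.FAD Pool.OWN68 Pool.TQ Pool.T4H
open Pool.T4C
open Pool.K2S (Pe)
open Pool.PR46 (P1 P1_law P1_f P1_s P1_pos full_one glueLaw)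
open Pool.DR24 (cr dp PA U3 mx nz nsg3 pa_of_near nz_u3 nrm_par kcode kval kval_j kval_le codes)
open Pool.DIR21 (Pb_Pe Pb_mono Pe_ci cond_ci ci ci0 ci1 ci_nonneg ci_mono mg_cond)
open Pool.DIR16 (Pe_cc cond_cc Pe_le_one ci_and)

/-- **The hypotheses.** -/
structure TieB {Ω Λ Γ Φ υ : Type} [Fintype Ω] {N : ℕ} (p : Ω → ℝ) (L : Ω → Λ) (tf : Ω → ℤ)
    (G : Ω → Γ) (D : Λ → Fin (N + 1) → ℤ) (Fp : Ω → Φ) (z : Φ → Fin (N + 1) → ℤ) (Yb : Φ → υ)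
    (T : Ω × (Ω × Ω) → ℤ) (A : Λ × ((Fin (N + 1) → ℤ) × ℤ) → Fin (N + 1) → ℝ) (h η δ ϖ : ℝ)
    (u a K : ℕ) : Prop where
  s1 : HopA p L tf G D Fp z Yb T A (a * u) K (η * u)
  alv1 : Pe (P1 p G) (fun b => ¬ BigN D L (a * u) u b) ≤ δ
  row1 : RowT p (fun ω => z (Fp ω)) (fun ω => Yb (Fp ω)) (a * u)
    (((N : ℝ) + 1 - h) * (a * u) * Real.log 2 + η * u) ϖ

/-- **One coordinate.** -/
theorem tie_1 : ∀ h : ℝ, 0 < h → h ≤ 1 → ∃ (a : ℕ) (η δ ϖ : ℝ),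
    1 ≤ a ∧ 0 < η ∧ 0 < δ ∧ 0 < ϖ ∧ ∀ K : ℕ, ∃ u₀ : ℕ,
    ∀ (Ω Λ Γ Φ υ : Type) (_ : Fintype Ω) (p : Ω → ℝ) (L : Ω → Λ) (tf : Ω → ℤ) (G : Ω → Γ)
    (D : Λ → Fin 1 → ℤ) (Fp : Ω → Φ) (z : Φ → Fin 1 → ℤ) (Yb : Φ → υ) (T : Ω × (Ω × Ω) → ℤ)
    (A : Λ × ((Fin 1 → ℤ) × ℤ) → Fin 1 → ℝ) (u : ℕ), u₀ ≤ u →
    ¬ TieB (N := 0) p L tf G D Fp z Yb T A h η δ ϖ u a K := by
  intro h hh0 hh
  have hL2 : 0 < Real.log 2 := Real.log_pos (by norm_num)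
  have hL2' : 1 / 2 < Real.log 2 := by
    have := Real.log_two_gt_d9
    linarith
  obtain ⟨B₀, ϖ, hϖ, hst⟩ := starA (N := 0) (h := h) (δ := h / 100) (κ₁ := h / 4) (by norm_num) hh0
    hh (by positivity) (by linarith) (by positivity) (by linarith) 1
  refine ⟨max B₀ 1, 1 / 12, h / 100, 1, le_max_right _ _, by norm_num, by positivity, one_pos,
    fun K => ?_⟩
  obtain ⟨X0, hX0⟩ := hst K
  obtain ⟨X1, hX1⟩ := efa_small
  refine ⟨max (max X0 X1) 1, fun Ω Λ Γ Φ υ _ p L tf G D Fp z Yb T A u hu H => ?_⟩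
  have u0 : X0 ≤ u := (le_max_left _ _).trans ((le_max_left _ _).trans hu)
  have u1 : X1 ≤ u := (le_max_right _ _).trans ((le_max_left _ _).trans hu)
  have u2 : 1 ≤ u := (le_max_right _ _).trans hu
  have hp := H.s1.law
  have hHL := HL_F hp L G Fp
  have hal : Pe (P1 p G) (fun b => ¬ BigN D L (max B₀ 1 * u) u b) ≤ h / 100 := H.alv1
  have hbig := bigN hHL hp hal (by
    push_cast
    linarith)
  obtain ⟨E, hE, hS⟩ := hX0 Ω Λ Γ Φ υ (Ω × (Ω × Ω)) _ _ p L tf G D Fp z Yb T A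
    (max B₀ 1 * u) (1 / 12 * u) (Fl p L G) (fun w => w.1) ![fun w => w] u u (max B₀ 1) u0
    (le_max_left _ _) rfl le_rfl H.s1 (hX1 u u1) hHL hbig (fun E h1 h2 => by
      refine (H.row1 E h1 h2).trans ?_
      push_cast
      have : 1 / 12 * (u : ℝ) ≤ u * Real.log 2 := by
        have h3 := mul_le_mul_of_nonneg_left hL2'.le (Nat.cast_nonneg (α := ℝ) u)
        have h4 : (0 : ℝ) ≤ u := Nat.cast_nonneg u
        linarith
      linarith)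
  have hS' := hS (fun _ => 0)
  have hF := Fl_law hp L G
  have t1 : Pe (Fl p L G) (fun w => E w.1) = Pe p E := Pe_marg (Fl_f hp L G) E
  have t2 := smallN hHL hp hal
  have t3 := Pe_le2 hF.nonneg (E := fun w => E w.1)
    (F := fun w => ¬ BGN D L (max B₀ 1 * u) u (![fun w => w] : Fin 1 → Ω × (Ω × Ω) → Ω × (Ω × Ω)) w)
    (G := fun w => BGN D L (max B₀ 1 * u) u (![fun w => w] : Fin 1 → Ω × (Ω × Ω) → Ω × (Ω × Ω)) w ∧
      E w.1 ∧ (2 : ℝ) ^ (-(h / 4 * u)) < |dtc (QDN D L u (![fun w => w] : Fin 1 →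
        Ω × (Ω × Ω) → Ω × (Ω × Ω))) (fun _ => 0) w|)
    (fun w _ a => by
      by_cases hb : BGN D L (max B₀ 1 * u) u (![fun w => w] : Fin 1 →
        Ω × (Ω × Ω) → Ω × (Ω × Ω)) w
      · refine Or.inr ⟨hb, a, ?_⟩
        rw [dtc_one, abs_one]
        have h3 : -(h / 4 * (u : ℝ)) < 0 := by
          have : (0 : ℝ) < u := by exact_mod_cast u2
          have : 0 < h / 4 * (u : ℝ) := by positivity
          linarith
        exact Real.rpow_lt_one_of_one_lt_of_neg (by norm_num) h3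
      · exact Or.inl hb)
  push_cast at t2
  linarith

/-- **Two coordinates.** -/
theorem tie_2 : ∀ h : ℝ, 0 < h → h ≤ 1 → ∃ (a : ℕ) (η δ ϖ : ℝ),
    1 ≤ a ∧ 0 < η ∧ 0 < δ ∧ 0 < ϖ ∧ ∀ K : ℕ, ∃ u₀ : ℕ,
    ∀ (Ω Λ Γ Φ υ : Type) (_ : Fintype Ω) (p : Ω → ℝ) (L : Ω → Λ) (tf : Ω → ℤ) (G : Ω → Γ)
    (D : Λ → Fin 2 → ℤ) (Fp : Ω → Φ) (z : Φ → Fin 2 → ℤ) (Yb : Φ → υ) (T : Ω × (Ω × Ω) → ℤ)
    (A : Λ × ((Fin 2 → ℤ) × ℤ) → Fin 2 → ℝ) (u : ℕ), u₀ ≤ u →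
    TieB (N := 1) p L tf G D Fp z Yb T A h η δ ϖ u a K →
    ¬ FI1G (N := 1) p L Fp (fun ω => z (Fp ω)) (fun ω => Yb (Fp ω)) u a 0
      (u * Real.log 2 - η * u) ϖ := by
  intro h hh0 hh
  have hL2 : 0 < Real.log 2 := Real.log_pos (by norm_num)
  have hL2' : 1 / 2 < Real.log 2 := by
    have := Real.log_two_gt_d9
    linarith
  obtain ⟨δA, hδA⟩ : ∃ δA : ℝ, δA = h / 25 := ⟨_, rfl⟩
  have hδ : 0 < δA := by rw [hδA]; positivity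
  have hδ1 : δA ≤ 1 := by rw [hδA]; linarith
  have hAA : 0 < δA * δA := by positivity
  have hAA1 : δA * δA ≤ 1 := mul_le_one₀ hδ1 hδ.le hδ1
  have hhA : h * (δA * δA) ≤ 1 := mul_le_one₀ hh hAA.le hAA1
  have hhA3 : h * (δA * δA * δA) ≤ 1 :=
    mul_le_one₀ hh (by positivity) (mul_le_one₀ hAA1 hδ.le hδ1)
  obtain ⟨c₁, hc₁⟩ : ∃ c₁ : ℝ, c₁ = δA / 2 := ⟨_, rfl⟩
  have hc₁0 : 0 < c₁ := by rw [hc₁]; positivity
  obtain ⟨δe, hδe⟩ : ∃ δe : ℝ, δe = h * (δA * δA) / 4000 := ⟨_, rfl⟩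
  have hδe0 : 0 < δe := by rw [hδe]; positivity
  obtain ⟨δS, hδS⟩ : ∃ δS : ℝ, δS = h * (δA * δA * δA) / 50000 := ⟨_, rfl⟩
  have hδS0 : 0 < δS := by rw [hδS]; positivity
  obtain ⟨δ₁, hδ₁⟩ : ∃ δ₁ : ℝ, δ₁ = δA / 8 := ⟨_, rfl⟩
  have hδ₁0 : 0 < δ₁ := by rw [hδ₁]; positivity
  obtain ⟨B₀, η, ϖ, hη, hϖ, hend⟩ := end0A (h := h) (c := c₁ / 4) (δ := δe) hh0 hh
    (by positivity) hδe0 (by rw [hδe]; linarith) 1
  obtain ⟨B₁, -, -, hst⟩ := starA (N := 1) (h := h) (δ := δS) (κ₁ := h / 4) (by norm_num) hh0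
    hh hδS0 (by rw [hδS]; linarith) (by positivity) (by linarith) 2
  obtain ⟨a₁, ha₁⟩ := exists_nat_gt (8 / h)
  have ha₁' : 2 ≤ h / 4 * a₁ := by
    rw [div_lt_iff₀ hh0] at ha₁
    linarith
  have ha₁1 : 1 ≤ a₁ := by
    have h1 : (0 : ℝ) < a₁ := lt_of_le_of_lt (by positivity) ha₁
    exact_mod_cast h1
  obtain ⟨b, hb⟩ : ∃ b : ℕ, b = max B₁ (max B₀ 1) := ⟨_, rfl⟩
  have hb1 : B₁ ≤ b := by rw [hb]; exact le_max_left _ _
  have hb0 : B₀ ≤ b := by rw [hb]; exact (le_max_left _ _).trans (le_max_right _ _)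
  have hb2 : 1 ≤ b := by rw [hb]; exact (le_max_right _ _).trans (le_max_right _ _)
  have hBa : B₀ ≤ b * a₁ := hb0.trans (Nat.le_mul_of_pos_right _ ha₁1)
  refine ⟨b * a₁, min η (1 / 12), h / 600, min ϖ (c₁ / 4), Nat.mul_pos hb2 ha₁1,
    lt_min hη (by norm_num), by positivity, lt_min hϖ (by positivity), fun K => ?_⟩
  obtain ⟨X1, hX1⟩ := hend K 128 (by norm_num)
  obtain ⟨X2, hX2⟩ := hst K
  obtain ⟨X3, hX3⟩ := efa_small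
  refine ⟨max (max X1 X2) (max X3 10), fun Ω Λ Γ Φ υ _ p L tf G D Fp z Yb T A u hu H
    hFI => ?_⟩
  have x1 : X1 ≤ u := (le_max_left _ _).trans ((le_max_left _ _).trans hu)
  have x2 : X2 ≤ u := (le_max_right _ _).trans ((le_max_left _ _).trans hu)
  have x3 : X3 ≤ u := (le_max_left _ _).trans ((le_max_right _ _).trans hu)
  have u10 : 10 ≤ u := (le_max_right _ _).trans ((le_max_right _ _).trans hu)
  have hu0 : (0 : ℝ) ≤ u := Nat.cast_nonneg u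
  have hη' : min η (1 / 12) * (u : ℝ) ≤ 1 / 12 * u :=
    mul_le_mul_of_nonneg_right (min_le_right _ _) hu0
  have hη'' : min η (1 / 12) * (u : ℝ) ≤ η * u :=
    mul_le_mul_of_nonneg_right (min_le_left _ _) hu0
  have hηL : min η (1 / 12) * (u : ℝ) ≤ u * Real.log 2 := by
    have h3 := mul_le_mul_of_nonneg_left hL2'.le hu0
    linarith
  have hxs : u ≤ a₁ * u := Nat.le_mul_of_pos_left _ ha₁1
  have hxsR : (u : ℝ) ≤ ((a₁ * u : ℕ) : ℝ) := by exact_mod_cast hxs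
  have hex : efa (min η (1 / 12) * u) ≤ u := (efa_mono hη').trans (hX3 u x3)
  have hp := H.s1.law
  have hF := Fl_law hp L G
  have hP := P1_law hp G
  have hQ := P1_law hF (fun w => Fp w.1)
  have hal : Pe (P1 p G) (fun c => ¬ BigN (N := 1) D L (b * a₁ * u) u c) ≤ h / 600 := H.alv1
  have hmm : b * (a₁ * u) = b * a₁ * u := (mul_assoc _ _ _).symm
  -- the star
  have hHL2 := HL_2 hp L G Fp
  obtain ⟨E, hE, hS⟩ := hX2 Ω Λ Γ Φ υ ((Ω × (Ω × Ω)) × (Ω × (Ω × Ω))) _ _ p L tf G D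
    Fp z Yb T A (b * a₁ * u) (min η (1 / 12) * u) (P1 (Fl p L G) (fun w => Fp w.1))
    (fun w => w.1.1) ![fun w => w.1, fun w => w.2] (a₁ * u) u b (x2.trans hxs) hb1 hmm hxs H.s1
    (hex.trans hxsR) hHL2 (bigN hHL2 hp hal (by
      push_cast
      linarith)) (fun E h1 h2 => by
      have hw : min ϖ (c₁ / 4) ≤ Pe p E := by
        refine le_trans ((min_le_right _ _).trans ?_) h1
        rw [hc₁]
        linarith
      refine (H.row1 E hw h2).trans ?_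
      have h3 : (u : ℝ) * Real.log 2 ≤ ((a₁ * u : ℕ) : ℝ) * Real.log 2 :=
        mul_le_mul_of_nonneg_right hxsR hL2.le
      push_cast at h3 ⊢
      linarith)
  have hS' := hS ![0, 1]
  obtain ⟨ρ₂, hρ₂⟩ : ∃ ρ₂ : ℝ, ρ₂ = (2 : ℝ) ^ (-(h / 4 * ((a₁ * u : ℕ) : ℝ))) := ⟨_, rfl⟩
  rw [← hρ₂] at hS'
  have hρ₂0 : 0 < ρ₂ := by rw [hρ₂]; positivity
  have px : (0 : ℝ) < 2 ^ u := by positivity
  have p10 : (1024 : ℝ) ≤ 2 ^ u := by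
    calc (1024 : ℝ) = 2 ^ 10 := by norm_num
      _ ≤ 2 ^ u := pow_le_pow_right₀ (by norm_num) u10
  have n3 : 1000 * ρ₂ * 2 ^ u ≤ 1 := by
    have h1 : ρ₂ ≤ (2 : ℝ) ^ (-((2 * u : ℕ) : ℝ)) := by
      rw [hρ₂]
      refine Real.rpow_le_rpow_of_exponent_le (by norm_num) (neg_le_neg ?_)
      push_cast
      have := mul_le_mul_of_nonneg_right ha₁' hu0
      linarith
    have h2 : (2 : ℝ) ^ (-((2 * u : ℕ) : ℝ)) = ((2 : ℝ) ^ u * 2 ^ u)⁻¹ := by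
      rw [Real.rpow_neg (by norm_num), Real.rpow_natCast, two_mul, pow_add]
    rw [h2] at h1
    have h3 : 1000 * ρ₂ * 2 ^ u ≤ 1000 * ((2 : ℝ) ^ u * 2 ^ u)⁻¹ * 2 ^ u :=
      mul_le_mul_of_nonneg_right (by linarith) px.le
    refine h3.trans ?_
    have h4 : 1000 * ((2 : ℝ) ^ u * 2 ^ u)⁻¹ * 2 ^ u = 1000 / 2 ^ u := by
      field_simp
    rw [h4, div_le_one px]
    linarith
  have n3' : ρ₂ ≤ 1 / 1000 := by
    have h1 : (1 : ℝ) ≤ 2 ^ u := one_le_pow₀ (by norm_num)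
    have h2 : 1000 * ρ₂ * 1 ≤ 1000 * ρ₂ * 2 ^ u := mul_le_mul_of_nonneg_left h1 (by positivity)
    linarith
  obtain ⟨m, hm⟩ : ∃ m : ℕ, m = b * a₁ * u := ⟨_, rfl⟩
  rw [← hm] at hS' hal
  obtain ⟨Bg, hBg⟩ : ∃ Bg : Ω × Ω → Prop, Bg = fun a => BigN (N := 1) D L m u a := ⟨_, rfl⟩
  obtain ⟨up, hup⟩ : ∃ up : Ω × Ω → Fin 3 → ℝ, up = fun a => u2 (a₁ * u) (dv D L a) := ⟨_, rfl⟩
  -- the exceptional pairs
  have s1 : Pe (P1 (Fl p L G) (fun w => Fp w.1)) (fun w => (E w.1.1 ∧ Bg w.1.2) ∧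
      Bg w.2.2 ∧ ¬ PA ρ₂ (up w.1.2) (up w.2.2)) ≤ δS := by
    refine le_trans (Pe_mo hQ.nonneg fun w hw => ?_) hS'
    obtain ⟨⟨a1, a2⟩, a3, a4⟩ := hw
    rw [hBg] at a2 a3
    refine ⟨fun j => ?_, a1, ?_⟩
    · fin_cases j
      · exact a2
      · exact a3
    · by_contra hno
      rw [dtc_two] at hno
      refine a4 ?_
      rw [hup]
      exact pa_em (not_lt.1 hno)
  -- the direction at the point
  obtain ⟨Tg, f, -, f2, -, f4⟩ := selw hF hF (X := fun w => Fp w.1) (Y := fun w => Fp w.1)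
    (fun _ => rfl) (fun b => Bg b.2) (fun a b => (E a.1 ∧ Bg a.2) ∧
      ¬ PA ρ₂ (up a.2) (up b.2)) hδ₁0
  obtain ⟨ψ, hψ⟩ : ∃ ψ : Φ → Fin 3 → ℝ, ψ = fun F => up (f F).2 := ⟨_, rfl⟩
  have hup3 : ∀ a, U3 (up a) := fun a => by rw [hup]; exact em_u3 _
  have hψ3 : ∀ F, U3 (ψ F) := fun F => by rw [hψ]; exact hup3 _
  have s2 : δ₁ * Pe (Fl p L G) (fun a => Tg (Fp a.1) ∧ (E a.1 ∧ Bg a.2) ∧
      ¬ PA ρ₂ (up a.2) (ψ (Fp a.1))) ≤ δS := by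
    rw [hψ]
    refine f4.trans (le_trans ?_ s1)
    exact Pe_mo hQ.nonneg fun w hw => ⟨hw.2.1, hw.1, hw.2.2⟩
  -- the direction of the line
  obtain ⟨Tg', f', -, f2', f3', f4'⟩ := selw hp hP (X := L) (Y := fun a => L a.1)
    (Fl_z hp L G) (fun a => Bg a) (fun ω a => (E ω ∧ Tg (Fp ω)) ∧
      ¬ PA ρ₂ (up a) (ψ (Fp ω))) hδ₁0
  obtain ⟨φ, hφ⟩ : ∃ φ : Λ → Fin 3 → ℝ, φ = fun l => up (f' l) := ⟨_, rfl⟩
  have hφ3 : ∀ l, U3 (φ l) := fun l => by rw [hφ]; exact hup3 _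
  have s3 : δ₁ * (δ₁ * Pe p (fun ω => Tg' (L ω) ∧ (E ω ∧ Tg (Fp ω)) ∧
      ¬ PA ρ₂ (φ (L ω)) (ψ (Fp ω)))) ≤ δS := by
    refine (mul_le_mul_of_nonneg_left (a := δ₁) ?_ hδ₁0.le).trans s2
    rw [hφ]
    refine f4'.trans ?_
    exact Pe_mo hF.nonneg fun w hw => ⟨hw.2.1.2, ⟨hw.2.1.1, hw.1⟩, hw.2.2⟩
  -- the event
  obtain ⟨E₁, hE₁⟩ : ∃ E₁ : Ω → Prop, E₁ = fun ω => Tg' (L ω) ∧ (E ω ∧ Tg (Fp ω)) := ⟨_, rfl⟩
  have s0 : δA ≤ Pe (Fl p L G) (fun w => E w.1 ∧ Bg w.2) := by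
    have h1 := Pe_le2 hF.nonneg (E := fun w => E w.1) (F := fun w => E w.1 ∧ Bg w.2)
      (G := fun w => ¬ Bg w.2) (fun w _ hw => by
        by_cases h2 : Bg w.2
        · exact Or.inl ⟨hw, h2⟩
        · exact Or.inr h2)
    have h2 : Pe (Fl p L G) (fun w => E w.1) = Pe p E := Pe_marg (Fl_f hp L G) E
    have h3 : Pe (Fl p L G) (fun w => ¬ Bg w.2) = Pe (P1 p G) (fun a => ¬ Bg a) :=
      Pe_marg (Fl_s hp L G) (fun a => ¬ Bg a)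
    have h4 : Pe (P1 p G) (fun a => ¬ Bg a) ≤ h / 600 := by
      rw [hBg]
      exact hal
    rw [hδA]
    linarith
  have s4 : c₁ ≤ Pe p E₁ := by
    have h1 := Pe_le3 hF.nonneg (E := fun w => E w.1 ∧ Bg w.2)
      (F := fun w => ¬ Tg (Fp w.1) ∧ Bg w.2)
      (G := fun w => ¬ Tg' (L w.2.1) ∧ Bg w.2) (H := fun w => E₁ w.1)
      (fun w hw a => by
        by_cases h1 : Tg (Fp w.1)
        · by_cases h2 : Tg' (L w.2.1)
          · refine Or.inr (Or.inr ?_)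
            rw [hE₁]
            refine ⟨?_, a.1, h1⟩
            rw [(Fl_pos hp L G hw).2.2.2.2]
            exact h2
          · exact Or.inr (Or.inl ⟨h2, a.2⟩)
        · exact Or.inl ⟨h1, a.2⟩)
    have h2 := sel_out hF hδ₁0.le f2
    have h3 : Pe (Fl p L G) (fun w => ¬ Tg' (L w.2.1) ∧ Bg w.2) ≤ δ₁ := by
      have h4 := Pe_marg (Fl_s hp L G) (fun a => ¬ Tg' (L a.1) ∧ Bg a)
      rw [h4]
      exact sel_out hP hδ₁0.le f2'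
    have h5 : Pe (Fl p L G) (fun w => E₁ w.1) = Pe p E₁ := Pe_marg (Fl_f hp L G) E₁
    rw [h5] at h1
    rw [hc₁]
    linarith
  obtain ⟨bb, hbb⟩ : ∃ b : ℝ, b = Pe p (fun ω => E₁ ω ∧ ¬ PA ρ₂ (φ (L ω)) (ψ (Fp ω))) := ⟨_, rfl⟩
  have s5 : δ₁ * (δ₁ * bb) ≤ δS := by
    refine le_trans (le_of_eq ?_) s3
    rw [hbb, hE₁]
    simp only [and_assoc]
  have s6 : 200 * bb ≤ c₁ := by
    rw [hδ₁, hδS] at s5
    have h1 : δA / 8 * (δA / 8 * bb) = δA * δA * (bb / 64) := by ring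
    have h2 : h * (δA * δA * δA) / 50000 = δA * δA * (h * δA / 50000) := by ring
    rw [h1, h2] at s5
    have h3 := le_of_mul_le_mul_left s5 hAA
    have h4 : h * δA ≤ δA := mul_le_of_le_one_left hδ.le hh
    rw [hc₁]
    linarith
  obtain ⟨j, s, hE₂⟩ := codesE hp L Fp hφ3 hψ3 (ρ₂ := ρ₂) (by linarith) hc₁0 s4 hbb.ge s6 (u - 6)
    (by
      have h1 : (2 : ℝ) ^ (u - 6) ≤ 2 ^ u := pow_le_pow_right₀ (by norm_num) (Nat.sub_le _ _)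
      have h2 : (2 : ℝ) ^ (u - 6) * (2 * ρ₂) ≤ 2 ^ u * (2 * ρ₂) :=
        mul_le_mul_of_nonneg_right h1 (by positivity)
      linarith)
  obtain ⟨E₂, hE₂d⟩ : ∃ E₂ : Ω → Prop, E₂ = fun ω => E₁ ω ∧ |φ (L ω) j| = 1 ∧
      PA ρ₂ (φ (L ω)) (ψ (Fp ω)) ∧ kcode (u - 6) j s (φ (L ω)) =
        kcode (u - 6) j s (ψ (Fp ω)) := ⟨_, rfl⟩
  rw [← hE₂d] at hE₂
  have hE₂0 : 0 < Pe p E₂ := lt_of_lt_of_le (by positivity) hE₂
  obtain ⟨j', rfl⟩ : ∃ j' : Fin 2, j = j'.castSucc := by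
    obtain ⟨ω, hω⟩ := Pe_ex hp.nonneg hE₂0
    rw [hE₂d] at hω
    have h1 := hω.2.1
    rw [hφ, hup] at h1
    exact cs_of_u2 h1
  -- the end
  have hHL := HL_F hp L G Fp
  have hrow2 := H.row1 E₂ ((min_le_right _ _).trans hE₂) hE₂0
  obtain ⟨E₃, hE₃, hE₃m, hfin⟩ := hX1 Ω Λ Γ Φ υ (Ω × (Ω × Ω)) _ _ p L tf G D
    Fp z Yb T A (b * a₁ * u) (min η (1 / 12) * u) (Fl p L G) (fun w => w.1) ![fun w => w]
    u u (b * a₁) x1 hBa rfl le_rfl H.s1 hex hHL (bigN hHL hp H.alv1 (by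
      push_cast
      linarith)) E₂ hE₂ (hrow2.trans (by
      push_cast
      linarith)) (fun ω => kcode (u - 6) j'.castSucc s (φ (L ω)))
    (kv (u - 6) j' s) (fun k i => kv_le _ _ _ _ _)
    (fun i hi H' h1 h2 h3 => by
      have := hFI (ot j') (fun l => kcode (u - 6) j'.castSucc s (φ l))
        (fun F => kcode (u - 6) j'.castSucc s (ψ F)) (kv (u - 6) j' s) E₂ (fun k => kv_ot _ _ _ _)
        (fun k i => kv_le _ _ _ _ _) (fun ω _ hω => by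
        rw [hE₂d] at hω
        exact hω.2.2.2) i hi H' h1 ((min_le_left _ _).trans h2) h3
      refine le_trans ?_ this
      linarith)
  have hfin' := hfin 0 (fun Q i => ((kcode (u - 6) j'.castSucc s (em (kc (Q 0))) i : ℤ) : ℝ))
  rw [← hm] at hfin'
  have t1 : δ₁ * Pe p E₃ ≤ Pe (Fl p L G) (fun w => E₃ w.1 ∧ Bg w.2) :=
    sel_low hp hP (Fl_z hp L G) f3' fun ω _ hω => by
      have := hE₃ ω hω
      rw [hE₂d, hE₁] at this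
      exact this.1.1
  have t2 := Pe_le2 hF.nonneg (E := fun w => E₃ w.1 ∧ Bg w.2)
    (F := fun a => Tg (Fp a.1) ∧ (E a.1 ∧ Bg a.2) ∧ ¬ PA ρ₂ (up a.2) (ψ (Fp a.1)))
    (G := fun w => BGN (N := 1) D L m u ![fun w : Ω × (Ω × Ω) => w] w ∧ E₃ w.1 ∧
      MT0 (QDN (N := 1) D L u ![fun w : Ω × (Ω × Ω) => w]) 0
      (fun w => w.1) (fun ω => kcode (u - 6) j'.castSucc s (φ (L ω))) (kv (u - 6) j' s)
      (fun Q i => ((kcode (u - 6) j'.castSucc s (em (kc (Q 0))) i : ℤ) : ℝ)) 128 w)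
    (fun w hw a => by
      have a1 := hE₃ w.1 a.1
      rw [hE₂d, hE₁] at a1
      obtain ⟨⟨a2, a3, a4⟩, a5, a6, -⟩ := a1
      by_cases hPA : PA ρ₂ (up w.2) (ψ (Fp w.1))
      · right
        have hBw := a.2
        rw [hBg] at hBw
        refine ⟨fun j => ?_, a.1, ?_⟩
        · fin_cases j
          exact hBw
        · rw [hup] at hPA
          exact match_two (hφ3 _) (hψ3 _) hxs u10 hBw.pos a5 a6 hPA n3
      · left
        exact ⟨a4, ⟨a3, a.2⟩, hPA⟩)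
  have t3 : Pe (Fl p L G) (fun a => Tg (Fp a.1) ∧ (E a.1 ∧ Bg a.2) ∧
      ¬ PA ρ₂ (up a.2) (ψ (Fp a.1))) ≤ h * (δA * δA) / 6250 := by
    have h1 := s2
    rw [hδ₁, hδS] at h1
    have h2 : h * (δA * δA * δA) / 50000 = δA / 8 * (h * (δA * δA) / 6250) := by ring
    rw [h2] at h1
    exact le_of_mul_le_mul_left h1 (by positivity)
  have t4 : h * (δA * δA) / 1536 ≤ δ₁ * Pe p E₃ := by
    have h1 := mul_le_mul_of_nonneg_left hE₃m hδ₁0.le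
    refine le_trans (le_of_eq ?_) h1
    rw [hδ₁, hc₁]
    ring
  have t5 : 0 < h * (δA * δA) := by positivity
  rw [hδe] at hfin'
  linarith

end Pool.T4P
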